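import Pool.Agent.K4H94.SX.Defs
set_option autoImplicit false
set_option linter.unusedSectionVars false

/-!
The combined structure: an absorbing Hamming ball around `s`, random targets `r v`.
-/

namespace Pool.Agent.K4H94.SX

open Finset Sum

section flips

variable {κ : Type} [DecidableEq κ] [Fintype κ]

/-- the coordinates in which `w` and `s` differ -/
def diff (w s : κ → Bool) : Finset κ := univ.filter fun i => w i ≠ s i

/-- the coordinates in which `w` and `r` differ, and `s` agrees with `r` -/
def agr (w r s : κ → Bool) : Finset κ := univ.filter fun i => w i ≠ r i ∧ s i = r i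

theorem mem_diff {w s : κ → Bool} {i : κ} : i ∈ diff w s ↔ w i ≠ s i := by simp [diff]

theorem mem_agr {w r s : κ → Bool} {i : κ} : i ∈ agr w r s ↔ w i ≠ r i ∧ s i = r i := by
  simp [agr]

theorem flip_same (w : κ → Bool) (a : κ) : flip w a a = !w a := by simp [flip]

theorem flip_ne (w : κ → Bool) {a b : κ} (h : b ≠ a) : flip w a b = w b := by simp [flip, h]

theorem diff_flip_of_mem {w s : κ → Bool} {a : κ} (h : w a ≠ s a) :
    (diff (flip w a) s).card + 1 = (diff w s).card := by
  have h1 : diff (flip w a) s = (diff w s).erase a := by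
    ext b
    rw [Finset.mem_erase, mem_diff, mem_diff]
    by_cases hb : b = a
    · subst hb
      rw [flip_same]
      constructor
      · intro h2; exfalso; apply h2; revert h; cases w b <;> cases s b <;> simp
      · intro h2; exact absurd rfl h2.1
    · rw [flip_ne w hb]; simp [hb]
  rw [h1, Finset.card_erase_add_one (mem_diff.2 h)]

theorem diff_flip_of_notMem {w s : κ → Bool} {a : κ} (h : w a = s a) :
    (diff (flip w a) s).card = (diff w s).card + 1 := by
  have h1 : diff (flip w a) s = insert a (diff w s) := by
    ext b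
    rw [Finset.mem_insert, mem_diff, mem_diff]
    by_cases hb : b = a
    · subst hb
      rw [flip_same]
      constructor
      · intro _; exact Or.inl rfl
      · intro _; rw [h]; cases s b <;> simp
    · rw [flip_ne w hb]; simp [hb]
  rw [h1, Finset.card_insert_of_notMem]
  rw [mem_diff]; simpa using h

theorem agr_flip_of_mem {w r s : κ → Bool} {a : κ} (hs : s a = r a) (h : w a ≠ r a) :
    (agr (flip w a) r s).card + 1 = (agr w r s).card := by
  have h1 : agr (flip w a) r s = (agr w r s).erase a := by
    ext b
    rw [Finset.mem_erase, mem_agr, mem_agr]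
    by_cases hb : b = a
    · subst hb
      rw [flip_same]
      constructor
      · intro h2; exfalso; apply h2.1; revert h; cases w b <;> cases r b <;> simp
      · intro h2; exact absurd rfl h2.1
    · rw [flip_ne w hb]; simp [hb]
  rw [h1, Finset.card_erase_add_one (mem_agr.2 ⟨h, hs⟩)]

theorem agr_flip_of_notMem {w r s : κ → Bool} {a : κ} (hs : s a = r a) (h : w a = r a) :
    (agr (flip w a) r s).card = (agr w r s).card + 1 := by
  have h1 : agr (flip w a) r s = insert a (agr w r s) := by
    ext b
    rw [Finset.mem_insert, mem_agr, mem_agr]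
    by_cases hb : b = a
    · subst hb
      rw [flip_same]
      constructor
      · intro _; exact Or.inl rfl
      · intro _; exact ⟨by rw [h]; cases r b <;> simp, hs⟩
    · rw [flip_ne w hb]; simp [hb]
  rw [h1, Finset.card_insert_of_notMem]
  rw [mem_agr]; intro h2; exact h2.1 h

theorem agr_flip_of_ne {w r s : κ → Bool} {a : κ} (hs : s a ≠ r a) :
    agr (flip w a) r s = agr w r s := by
  ext b
  rw [mem_agr, mem_agr]
  by_cases hb : b = a
  · subst hb
    constructor <;> (intro h; exact absurd h.2 hs)
  · rw [flip_ne w hb]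

theorem agr_le_diff (w r s : κ → Bool) : agr w r s ⊆ diff w s := by
  intro i hi
  rw [mem_agr] at hi
  rw [mem_diff, hi.2]
  exact hi.1

theorem agr_le_diff' (w r s : κ → Bool) : agr w r s ⊆ diff w r := by
  intro i hi
  rw [mem_agr] at hi
  rw [mem_diff]
  exact hi.1

theorem card_le (S : Finset κ) : S.card ≤ Fintype.card κ := Finset.card_le_univ S

/-- the directions that lead closer to the target -/
def KB (q : ℕ) (r s w : κ → Bool) : Finset κ :=
  if (agr w r s).card ≤ q then diff w s else diff w r

/-- the objective function on the first factor outside the ball -/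
def gB (q : ℕ) (r s w : κ → Bool) : ℕ :=
  if (agr w r s).card ≤ q then (Fintype.card κ + 1) + (Fintype.card κ - (diff w s).card)
  else Fintype.card κ - (diff w r).card

/-- all that happens to the numbers when a coordinate is flipped -/
theorem flip_cases (w r s : κ → Bool) (a : κ) :
    (a ∈ diff w r ∧ a ∈ diff w s ∧ (diff (flip w a) r).card + 1 = (diff w r).card ∧
      (diff (flip w a) s).card + 1 = (diff w s).card ∧
      (agr (flip w a) r s).card + 1 = (agr w r s).card) ∨
    (a ∉ diff w r ∧ a ∉ diff w s ∧ (diff (flip w a) r).card = (diff w r).card + 1 ∧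
      (diff (flip w a) s).card = (diff w s).card + 1 ∧
      (agr (flip w a) r s).card = (agr w r s).card + 1) ∨
    (a ∈ diff w r ∧ a ∉ diff w s ∧ (diff (flip w a) r).card + 1 = (diff w r).card ∧
      (diff (flip w a) s).card = (diff w s).card + 1 ∧
      (agr (flip w a) r s).card = (agr w r s).card ∧ (agr w r s).card + 1 ≤ (diff w r).card) ∨
    (a ∉ diff w r ∧ a ∈ diff w s ∧ (diff (flip w a) r).card = (diff w r).card + 1 ∧
      (diff (flip w a) s).card + 1 = (diff w s).card ∧
      (agr (flip w a) r s).card = (agr w r s).card ∧ (agr w r s).card + 1 ≤ (diff w s).card) := by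
  by_cases hs : s a = r a
  · by_cases hw : w a = r a
    · right; left
      exact ⟨by rw [mem_diff]; simpa using hw, by rw [mem_diff, hs]; simpa using hw,
        diff_flip_of_notMem hw, diff_flip_of_notMem (hw.trans hs.symm),
        agr_flip_of_notMem hs hw⟩
    · left
      have hw' : w a ≠ s a := by rw [hs]; exact hw
      exact ⟨mem_diff.2 hw, mem_diff.2 hw', diff_flip_of_mem hw, diff_flip_of_mem hw',
        agr_flip_of_mem hs hw⟩
  · by_cases hw : w a = r a
    · right; right; right
      have hw' : w a ≠ s a := by rw [hw]; exact fun h => hs h.symm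
      refine ⟨by rw [mem_diff]; simpa using hw, mem_diff.2 hw', diff_flip_of_notMem hw,
        diff_flip_of_mem hw', by rw [agr_flip_of_ne hs], ?_⟩
      apply Nat.succ_le_of_lt
      apply Finset.card_lt_card
      refine ⟨agr_le_diff w r s, fun h => ?_⟩
      have := h (mem_diff.2 hw')
      rw [mem_agr] at this
      exact hs this.2
    · right; right; left
      have hw' : w a = s a := by
        revert hs hw; cases w a <;> cases s a <;> cases r a <;> simp
      refine ⟨mem_diff.2 hw, by rw [mem_diff]; simpa using hw', diff_flip_of_mem hw,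
        diff_flip_of_notMem hw', by rw [agr_flip_of_ne hs], ?_⟩
      apply Nat.succ_le_of_lt
      apply Finset.card_lt_card
      refine ⟨agr_le_diff' w r s, fun h => ?_⟩
      have := h (mem_diff.2 hw)
      rw [mem_agr] at this
      exact hs this.2

theorem gB_lt (q : ℕ) (r s w : κ → Bool) : gB q r s w < 2 * Fintype.card κ + 2 := by
  unfold gB
  split_ifs <;> omega

theorem gB_iff (q : ℕ) (r s w : κ → Bool) (a : κ) :
    gB q r s w < gB q r s (flip w a) ↔ a ∈ KB q r s w := by
  have h1 := card_le (diff w r)
  have h2 := card_le (diff w s)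
  have h3 := card_le (diff (flip w a) r)
  have h4 := card_le (diff (flip w a) s)
  unfold gB KB
  rcases flip_cases w r s a with h | h | h | h <;> obtain ⟨ha, hb, h5, h6, h7⟩ := h <;>
    split_ifs <;> simp only [ha, hb, iff_true, iff_false, not_lt] <;> omega

theorem gB_ne (q : ℕ) (r s w : κ → Bool) (a : κ) :
    gB q r s (flip w a) ≠ gB q r s w := by
  have h1 := card_le (diff w r)
  have h2 := card_le (diff w s)
  have h3 := card_le (diff (flip w a) r)
  have h4 := card_le (diff (flip w a) s)
  unfold gB
  rcases flip_cases w r s a with h | h | h | h <;> obtain ⟨ha, hb, h5, h6, h7⟩ := h <;>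
    split_ifs <;> omega

end flips

section comb

variable {ι κ : Type} [DecidableEq ι] [Fintype ι] [DecidableEq κ] [Fintype κ] {q : ℕ}

/-- the modulus -/
def MM (κ : Type) [Fintype κ] : ℕ := 2 * Fintype.card κ + 2

/-- the objective function -/
def cf (s : κ → Bool) (r : (ι → Bool) → κ → Bool) (A A' : Str ι q) (x : κ ⊕ ι → Bool) : ℕ :=
  if (diff (x ∘ inl) s).card ≤ q then
    MM κ * (∑ v, A.f v + 1) + MM κ * A'.f (x ∘ inr) +
      (Fintype.card κ - (diff (x ∘ inl) s).card)
  else MM κ * A.f (x ∘ inr) + gB q (r (x ∘ inr)) s (x ∘ inl)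

theorem flip_inl_inl (x : κ ⊕ ι → Bool) (a : κ) : flip x (inl a) ∘ inl = flip (x ∘ inl) a := by
  funext b
  by_cases hb : b = a
  · subst hb; simp [flip]
  · simp [flip, hb]

theorem flip_inl_inr (x : κ ⊕ ι → Bool) (a : κ) : flip x (inl a) ∘ inr = x ∘ inr := by
  funext b
  simp [flip]

theorem flip_inr_inr (x : κ ⊕ ι → Bool) (i : ι) : flip x (inr i) ∘ inr = flip (x ∘ inr) i := by
  funext b
  by_cases hb : b = i
  · subst hb; simp [flip]
  · simp [flip, hb]

theorem flip_inr_inl (x : κ ⊕ ι → Bool) (i : ι) : flip x (inr i) ∘ inl = x ∘ inl := by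
  funext b
  simp [flip]

theorem MM_step {M a b u v : ℕ} (hu : u < M) (hv : v < M) (hab : a ≠ b) :
    (M * a + u < M * b + v ↔ a < b) ∧ M * b + v ≠ M * a + u := by
  rcases Nat.lt_or_gt_of_ne hab with h | h
  · have h1 : M * (a + 1) ≤ M * b := Nat.mul_le_mul_left M h
    rw [Nat.mul_add, Nat.mul_one] at h1
    constructor
    · constructor
      · intro _; exact h
      · intro _; omega
    · omega
  · have h1 : M * (b + 1) ≤ M * a := Nat.mul_le_mul_left M h
    rw [Nat.mul_add, Nat.mul_one] at h1
    constructor
    · constructor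
      · intro h2; omega
      · intro h2; omega
    · omega

theorem phase_lt (s : κ → Bool) (r : (ι → Bool) → κ → Bool) (A : Str ι q)
    (v : ι → Bool) (w : κ → Bool) :
    MM κ * A.f v + gB q (r v) s w < MM κ * (∑ v, A.f v + 1) := by
  have h1 : A.f v ≤ ∑ v, A.f v := Finset.single_le_sum (fun _ _ => Nat.zero_le _) (mem_univ v)
  have h2 : MM κ * (A.f v + 1) ≤ MM κ * (∑ v, A.f v + 1) :=
    Nat.mul_le_mul_left _ (by omega)
  have h3 := gB_lt q (r v) s w
  rw [Nat.mul_add, Nat.mul_one] at h2
  unfold MM at h2 ⊢
  omega

/-- comparison of `cf` at neighbours -/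
theorem cf_cmp (s : κ → Bool) (r : (ι → Bool) → κ → Bool) (A A' : Str ι q)
    (x : κ ⊕ ι → Bool) (z : κ ⊕ ι) :
    (cf s r A A' x < cf s r A A' (flip x z) ↔
      z ∈ if (diff (x ∘ inl) s).card ≤ q then (diff (x ∘ inl) s).disjSum (improving A'.f (x ∘ inr))
        else (KB q (r (x ∘ inr)) s (x ∘ inl)).disjSum (improving A.f (x ∘ inr))) ∧
    cf s r A A' (flip x z) ≠ cf s r A A' x := by
  rcases z with a | i
  · have e1 := flip_inl_inl x a
    have e2 := flip_inl_inr x a
    set w := x ∘ inl with hw
    set v := x ∘ inr with hv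
    unfold cf
    rw [e1, e2, ← hw, ← hv]
    have p1 := phase_lt s r A v w
    have p2 := phase_lt s r A v (flip w a)
    have g1 := gB_iff q (r v) s w a
    have g2 := gB_ne q (r v) s w a
    have h1 := card_le (diff w (r v))
    have h2 := card_le (diff w s)
    have h3 := card_le (diff (flip w a) (r v))
    have h4 := card_le (diff (flip w a) s)
    have h8 := Finset.card_le_card (agr_le_diff w (r v) s)
    by_cases hZ : (diff w s).card ≤ q
    · rw [if_pos hZ, if_pos hZ, Finset.inl_mem_disjSum]
      by_cases hZ' : (diff (flip w a) s).card ≤ q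
      · rw [if_pos hZ']
        rcases flip_cases w (r v) s a with h | h | h | h <;> obtain ⟨ha, hb, h5, h6, h7⟩ := h <;>
          simp only [hb, iff_true, iff_false] <;> constructor <;> omega
      · rw [if_neg hZ']
        rcases flip_cases w (r v) s a with h | h | h | h <;> obtain ⟨ha, hb, h5, h6, h7⟩ := h <;>
          simp only [hb, iff_true, iff_false] <;> constructor <;> omega
    · rw [if_neg hZ, if_neg hZ, Finset.inl_mem_disjSum]
      by_cases hZ' : (diff (flip w a) s).card ≤ q
      · rw [if_pos hZ']
        have hK : a ∈ KB q (r v) s w := by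
          unfold KB
          rcases flip_cases w (r v) s a with h | h | h | h <;>
            obtain ⟨ha, hb, h5, h6, h7⟩ := h <;> split_ifs <;> first | exact ha | exact hb | omega
        simp only [hK, iff_true]
        constructor <;> omega
      · rw [if_neg hZ']
        constructor
        · rw [← g1]; omega
        · omega
  · have e1 := flip_inr_inl x i
    have e2 := flip_inr_inr x i
    set w := x ∘ inl with hw
    set v := x ∘ inr with hv
    unfold cf
    rw [e1, e2, ← hw, ← hv]
    by_cases hZ : (diff w s).card ≤ q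
    · rw [if_pos hZ, if_pos hZ, if_pos hZ, Finset.inr_mem_disjSum]
      have h2 := card_le (diff w s)
      have hu : Fintype.card κ - (diff w s).card < MM κ := by unfold MM; omega
      have key := MM_step hu hu (A'.tie v i).symm
      have h3 : i ∈ improving A'.f v ↔ A'.f v < A'.f (flip v i) := by simp [improving]
      rw [h3, ← key.1]
      constructor
      · omega
      · have := key.2; omega
    · rw [if_neg hZ, if_neg hZ, if_neg hZ, Finset.inr_mem_disjSum]
      have key := MM_step (M := MM κ) (gB_lt q (r v) s w) (gB_lt q (r (flip v i)) s w)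
        (A.tie v i).symm
      have h3 : i ∈ improving A.f v ↔ A.f v < A.f (flip v i) := by simp [improving]
      rw [h3]
      exact key

theorem cf_improving (s : κ → Bool) (r : (ι → Bool) → κ → Bool) (A A' : Str ι q)
    (x : κ ⊕ ι → Bool) : improving (cf s r A A') x =
      if (diff (x ∘ inl) s).card ≤ q then (diff (x ∘ inl) s).disjSum (improving A'.f (x ∘ inr))
        else (KB q (r (x ∘ inr)) s (x ∘ inl)).disjSum (improving A.f (x ∘ inr)) := by
  ext z
  rw [← (cf_cmp s r A A' x z).1]
  simp [improving]

theorem KB_card {r s w : κ → Bool} (hw : q < (diff w s).card) : q < (KB q r s w).card := by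
  unfold KB
  split_ifs with h
  · exact hw
  · exact lt_of_lt_of_le (not_le.1 h) (Finset.card_le_card (agr_le_diff' w r s))

/-- two local sinks on the same face agree -/
theorem KB_uniq {r s w w' : κ → Bool} (S : Finset κ) (h : ∀ i, i ∉ S → w i = w' i)
    (h1 : ∀ i ∈ S, i ∉ KB q r s w) (h2 : ∀ i ∈ S, i ∉ KB q r s w') : w = w' := by
  have sub : ∀ u : κ → Bool, agr u r s ⊆ KB q r s u := by
    intro u
    unfold KB
    split_ifs
    · exact agr_le_diff u r s
    · exact agr_le_diff' u r s
  have hag : agr w r s = agr w' r s := by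
    ext i
    by_cases hi : i ∈ S
    · constructor
      · intro h3; exact absurd (sub w h3) (h1 i hi)
      · intro h3; exact absurd (sub w' h3) (h2 i hi)
    · rw [mem_agr, mem_agr, h i hi]
  funext i
  by_cases hi : i ∈ S
  · have a1 := h1 i hi
    have a2 := h2 i hi
    unfold KB at a1 a2
    rw [← hag] at a2
    split_ifs at a1 a2
    · rw [mem_diff, not_not] at a1 a2
      rw [a1, a2]
    · rw [mem_diff, not_not] at a1 a2
      rw [a1, a2]
  · exact h i hi

theorem mixed_false {r s w w' : κ → Bool} (S : Finset κ) (h : ∀ i, i ∉ S → w i = w' i)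
    (hw : (diff w s).card ≤ q) (hw' : ¬ (diff w' s).card ≤ q)
    (h1 : ∀ i ∈ S, i ∉ diff w s) (h2 : ∀ i ∈ S, i ∉ KB q r s w') : False := by
  unfold KB at h2
  split_ifs at h2 with h3
  · have : w = w' := by
      funext i
      by_cases hi : i ∈ S
      · have a1 := h1 i hi
        have a2 := h2 i hi
        rw [mem_diff, not_not] at a1 a2
        rw [a1, a2]
      · exact h i hi
    rw [this] at hw
    exact hw' hw
  · have hsub : agr w' r s ⊆ diff w s := by
      intro i hi
      by_cases hiS : i ∈ S
      · exact absurd (agr_le_diff' w' r s hi) (h2 i hiS)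
      · rw [mem_diff, h i hiS, ← mem_diff]
        exact agr_le_diff w' r s hi
    have := Finset.card_le_card hsub
    omega

/-- the combined structure -/
def comb (s : κ → Bool) (r : (ι → Bool) → κ → Bool) (A A' : Str ι q) : Str (κ ⊕ ι) q where
  f := cf s r A A'
  U := fun x => q < (diff (x ∘ inl) s).card ∨ A'.U (x ∘ inr)
  tie := fun x z => (cf_cmp s r A A' x z).2
  big := by
    intro x hx
    rw [cf_improving]
    split_ifs with hZ
    · rcases hx with hx | hx
      · omega
      · rw [Finset.card_disjSum]
        have := A'.big _ hx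
        omega
    · rw [Finset.card_disjSum]
      have := KB_card (q := q) (r := r (x ∘ inr)) (not_le.1 hZ)
      omega
  uniq := by
    intro S x y hxy hx hy
    have hw : ∀ i, i ∉ univ.filter (fun i : κ => inl i ∈ S) → (x ∘ inl) i = (y ∘ inl) i := by
      intro i hi
      apply hxy
      simpa using hi
    have hv : ∀ i, i ∉ univ.filter (fun i : ι => inr i ∈ S) → (x ∘ inr) i = (y ∘ inr) i := by
      intro i hi
      apply hxy
      simpa using hi
    have fin : x ∘ inl = y ∘ inl → x ∘ inr = y ∘ inr → x = y := by
      intro h1 h2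
      funext z
      rcases z with a | i
      · exact congrFun h1 a
      · exact congrFun h2 i
    have hx1 : ∀ i ∈ univ.filter (fun i : κ => inl i ∈ S), inl i ∉ improving (cf s r A A') x :=
      fun i hi => hx _ (by simpa using hi)
    have hx2 : ∀ i ∈ univ.filter (fun i : ι => inr i ∈ S), inr i ∉ improving (cf s r A A') x :=
      fun i hi => hx _ (by simpa using hi)
    have hy1 : ∀ i ∈ univ.filter (fun i : κ => inl i ∈ S), inl i ∉ improving (cf s r A A') y :=
      fun i hi => hy _ (by simpa using hi)
    have hy2 : ∀ i ∈ univ.filter (fun i : ι => inr i ∈ S), inr i ∉ improving (cf s r A A') y :=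
      fun i hi => hy _ (by simpa using hi)
    rw [cf_improving] at hx1 hx2 hy1 hy2
    by_cases hZx : (diff (x ∘ inl) s).card ≤ q
    · rw [if_pos hZx] at hx1 hx2
      simp only [Finset.inl_mem_disjSum, Finset.inr_mem_disjSum] at hx1 hx2
      by_cases hZy : (diff (y ∘ inl) s).card ≤ q
      · rw [if_pos hZy] at hy1 hy2
        simp only [Finset.inl_mem_disjSum, Finset.inr_mem_disjSum] at hy1 hy2
        refine fin ?_ (A'.uniq _ _ _ hv hx2 hy2)
        funext i
        by_cases hi : i ∈ univ.filter (fun i : κ => inl i ∈ S)
        · have a1 := hx1 i hi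
          have a2 := hy1 i hi
          rw [mem_diff, not_not] at a1 a2
          rw [a1, a2]
        · exact hw i hi
      · rw [if_neg hZy] at hy1 hy2
        simp only [Finset.inl_mem_disjSum, Finset.inr_mem_disjSum] at hy1 hy2
        exact (mixed_false _ hw hZx hZy hx1 hy1).elim
    · rw [if_neg hZx] at hx1 hx2
      simp only [Finset.inl_mem_disjSum, Finset.inr_mem_disjSum] at hx1 hx2
      by_cases hZy : (diff (y ∘ inl) s).card ≤ q
      · rw [if_pos hZy] at hy1 hy2
        simp only [Finset.inl_mem_disjSum, Finset.inr_mem_disjSum] at hy1 hy2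
        exact (mixed_false _ (fun i hi => (hw i hi).symm) hZy hZx hy1 hx1).elim
      · rw [if_neg hZy] at hy1 hy2
        simp only [Finset.inl_mem_disjSum, Finset.inr_mem_disjSum] at hy1 hy2
        have e := A.uniq _ _ _ hv hx2 hy2
        refine fin ?_ e
        rw [← e] at hy1
        exact KB_uniq _ hw hx1 hy1

theorem comb_f (s : κ → Bool) (r : (ι → Bool) → κ → Bool) (A A' : Str ι q) :
    (comb s r A A').f = cf s r A A' := rfl

theorem comb_U (s : κ → Bool) (r : (ι → Bool) → κ → Bool) (A A' : Str ι q)
    (x : κ ⊕ ι → Bool) :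
    (comb s r A A').U x ↔ q < (diff (x ∘ inl) s).card ∨ A'.U (x ∘ inr) := Iff.rfl

end comb

end Pool.Agent.K4H94.SX
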