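import Mathlib
set_option autoImplicit false
set_option linter.unusedSectionVars false

/-!
Flows (probabilities of the histories of a pivot rule with memory), random structures on cubes,
and the external process lemma.
-/

namespace Pool.Agent.K4H94.SX

open Finset Sum

/-- the neighbour of `x` in direction `i` -/
def flip {ι : Type} [DecidableEq ι] (x : ι → Bool) (i : ι) : ι → Bool :=
  Function.update x i (!x i)

/-- the improving directions at `x` -/
def improving {ι : Type} [DecidableEq ι] [Fintype ι] (f : (ι → Bool) → ℕ) (x : ι → Bool) :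
    Finset ι :=
  univ.filter fun i => f x < f (flip x i)

/-- a history: the observed set of improving directions, the value and the chosen direction, the
latest first -/
abbrev Hist (ι : Type) := List ((Finset ι × ℕ) × ι)

/-- the probabilities of the histories: `c`, `q`, `θ` are the parameters of the condition on the
ratio of probabilities -/
structure IsFlow {ι : Type} (c q θ : ℕ) (m : Hist ι → ℝ) : Prop where
  nonneg : ∀ h, 0 ≤ m h
  sub : ∀ h S y, ∑ i ∈ S, m (((S, y), i) :: h) ≤ m h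
  ratio : ∀ (h : Hist ι) (S : Finset ι) (y : ℕ) (X Y : Finset ι), X ⊆ S → Y ⊆ S → X.card ≤ c →
    q < Y.card → ∑ i ∈ X, m (((S, y), i) :: h) ≤ θ * ∑ i ∈ Y, m (((S, y), i) :: h)

/-- an objective function with a set `U` of vertices with more than `q` improving directions -/
structure Str (ι : Type) [DecidableEq ι] [Fintype ι] (q : ℕ) where
  f : (ι → Bool) → ℕ
  U : (ι → Bool) → Prop
  tie : ∀ x i, f (flip x i) ≠ f x
  uniq : ∀ (S : Finset ι) (x y : ι → Bool), (∀ i, i ∉ S → x i = y i) →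
    (∀ i ∈ S, i ∉ improving f x) → (∀ i ∈ S, i ∉ improving f y) → x = y
  big : ∀ x, U x → q < (improving f x).card

open Classical in
/-- the probability that a vertex outside `U` is reached with less than `T` steps -/
noncomputable def loss {ι : Type} [DecidableEq ι] [Fintype ι] {q : ℕ} (A : Str ι q)
    (m : Hist ι → ℝ) : ℕ → (ι → Bool) → Hist ι → ℝ
  | 0, _, _ => 0
  | T + 1, x, h => if A.U x then ∑ i ∈ improving A.f x,
      loss A m T (flip x i) (((improving A.f x, A.f x), i) :: h) else m h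

/-- random structures on which every flow is slow -/
def HardFor (ι : Type) [DecidableEq ι] [Fintype ι] (c q θ N : ℕ) (ε : ℝ) (Ω : Type) [Fintype Ω]
    (A : Ω → Str ι q) : Prop :=
  ∀ m : Hist ι → ℝ, IsFlow c q θ m → ∀ x h,
    ∑ ω, loss (A ω) m N x h ≤ ε * Fintype.card Ω * m h

def Hard (ι : Type) [DecidableEq ι] [Fintype ι] (c q θ N : ℕ) (ε : ℝ) : Prop :=
  ∃ (Ω : Type) (_ : Fintype Ω) (_ : Nonempty Ω) (A : Ω → Str ι q), HardFor ι c q θ N ε Ω A

section basic

variable {ι : Type} [DecidableEq ι] [Fintype ι] {q : ℕ}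

theorem loss_nonneg {c θ : ℕ} (A : Str ι q) {m : Hist ι → ℝ} (hm : IsFlow c q θ m) (T : ℕ)
    (x : ι → Bool) (h : Hist ι) : 0 ≤ loss A m T x h := by
  induction T generalizing x h with
  | zero => simp [loss]
  | succ T ih =>
    rw [loss]
    split_ifs
    · exact Finset.sum_nonneg fun i _ => ih _ _
    · exact hm.nonneg _

theorem loss_le {c θ : ℕ} (A : Str ι q) {m : Hist ι → ℝ} (hm : IsFlow c q θ m) (T : ℕ)
    (x : ι → Bool) (h : Hist ι) : loss A m T x h ≤ m h := by
  induction T generalizing x h with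
  | zero => simpa [loss] using hm.nonneg h
  | succ T ih =>
    rw [loss]
    split_ifs
    · exact (Finset.sum_le_sum fun i _ => ih _ _).trans (hm.sub _ _ _)
    · exact le_rfl

end basic

/-! ### The external process -/

section ext

variable {ι κ : Type} [DecidableEq ι] [Fintype ι] [DecidableEq κ] [Fintype κ] {q : ℕ}

/-- the combined observation -/
def obs (KO : (κ → Bool) → (ι → Bool) → Finset κ) (CV : (κ → Bool) → (ι → Bool) → ℕ → ℕ)
    (w : κ → Bool) (v : ι → Bool) (o : Finset ι × ℕ) : Finset (κ ⊕ ι) × ℕ :=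
  ((KO w v).disjSum o.1, CV w v o.2)

open Classical in
/-- the probability that the combined process with `w` outside `stop` reaches an inner vertex
outside `U` with less than `N` inner steps and at most `T` steps -/
noncomputable def ext (A : Str ι q) (KO : (κ → Bool) → (ι → Bool) → Finset κ)
    (CV : (κ → Bool) → (ι → Bool) → ℕ → ℕ) (stop : (κ → Bool) → Prop) (m : Hist (κ ⊕ ι) → ℝ) :
    ℕ → ℕ → (κ → Bool) → (ι → Bool) → Hist (κ ⊕ ι) → ℝ
  | 0, N, _, v, h => if N = 0 then 0 else if A.U v then 0 else m h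
  | T + 1, N, w, v, h => if N = 0 then 0 else if A.U v then (if stop w then 0 else
      ∑ a ∈ KO w v, ext A KO CV stop m T N (flip w a) v
        ((obs KO CV w v (improving A.f v, A.f v), inl a) :: h) +
      ∑ i ∈ improving A.f v, ext A KO CV stop m T (N - 1) w (flip v i)
        ((obs KO CV w v (improving A.f v, A.f v), inr i) :: h)) else m h

open Classical in
/-- sum over the external steps at the inner vertex `v` -/
noncomputable def run (KO : (κ → Bool) → (ι → Bool) → Finset κ)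
    (CV : (κ → Bool) → (ι → Bool) → ℕ → ℕ) (stop : (κ → Bool) → Prop) (v : ι → Bool)
    (o : Finset ι × ℕ) :
    ℕ → (κ → Bool) → Hist (κ ⊕ ι) → ((κ → Bool) → Hist (κ ⊕ ι) → ℝ) → ℝ
  | 0, w, h, ψ => if stop w then 0 else ψ w h
  | F + 1, w, h, ψ => if stop w then 0 else ψ w h +
      ∑ a ∈ KO w v, run KO CV stop v o F (flip w a) ((obs KO CV w v o, inl a) :: h) ψ

/-- the inner position after a history -/
def pos (v₀ : ι → Bool) : Hist ι → (ι → Bool)
  | [] => v₀
  | (_, i) :: h => flip (pos v₀ h) i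

/-- sum over the full histories with a given inner history -/
noncomputable def arr (KO : (κ → Bool) → (ι → Bool) → Finset κ)
    (CV : (κ → Bool) → (ι → Bool) → ℕ → ℕ) (stop : (κ → Bool) → Prop) (F : ℕ)
    (w₀ : κ → Bool) (v₀ : ι → Bool) (h₀ : Hist (κ ⊕ ι)) :
    Hist ι → ((κ → Bool) → Hist (κ ⊕ ι) → ℝ) → ℝ
  | [], φ => φ w₀ h₀
  | (o, i) :: h', φ => arr KO CV stop F w₀ v₀ h₀ h' fun w h =>
      run KO CV stop (pos v₀ h') o F w h fun w1 h1 =>
        φ w1 ((obs KO CV w1 (pos v₀ h') o, inr i) :: h1)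

variable (KO : (κ → Bool) → (ι → Bool) → Finset κ) (CV : (κ → Bool) → (ι → Bool) → ℕ → ℕ)
  (stop : (κ → Bool) → Prop)

theorem run_mono (v : ι → Bool) (o : Finset ι × ℕ) (F : ℕ) (w : κ → Bool) (h : Hist (κ ⊕ ι))
    {ψ ψ' : (κ → Bool) → Hist (κ ⊕ ι) → ℝ} (hψ : ∀ w h, ψ w h ≤ ψ' w h) :
    run KO CV stop v o F w h ψ ≤ run KO CV stop v o F w h ψ' := by
  induction F generalizing w h with
  | zero => simp only [run]; split_ifs; exacts [le_rfl, hψ _ _]
  | succ F ih =>
    simp only [run]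
    split_ifs
    · exact le_rfl
    · exact add_le_add (hψ _ _) (Finset.sum_le_sum fun a _ => ih _ _)

theorem run_nonneg (v : ι → Bool) (o : Finset ι × ℕ) (F : ℕ) (w : κ → Bool)
    (h : Hist (κ ⊕ ι)) {ψ : (κ → Bool) → Hist (κ ⊕ ι) → ℝ} (hψ : ∀ w h, 0 ≤ ψ w h) :
    0 ≤ run KO CV stop v o F w h ψ := by
  induction F generalizing w h with
  | zero => simp only [run]; split_ifs; exacts [le_rfl, hψ _ _]
  | succ F ih =>
    simp only [run]
    split_ifs
    · exact le_rfl
    · exact add_nonneg (hψ _ _) (Finset.sum_nonneg fun a _ => ih _ _)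

theorem run_sum {α : Type} (S : Finset α) (v : ι → Bool) (o : Finset ι × ℕ) (F : ℕ)
    (w : κ → Bool) (h : Hist (κ ⊕ ι)) (ψ : α → (κ → Bool) → Hist (κ ⊕ ι) → ℝ) :
    run KO CV stop v o F w h (fun w h => ∑ s ∈ S, ψ s w h) =
      ∑ s ∈ S, run KO CV stop v o F w h (ψ s) := by
  induction F generalizing w h with
  | zero => simp only [run]; split_ifs <;> simp
  | succ F ih =>
    simp only [run]
    split_ifs
    · simp
    · rw [Finset.sum_add_distrib, Finset.sum_comm]
      simp only [ih]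

theorem run_mul (r : ℝ) (v : ι → Bool) (o : Finset ι × ℕ) (F : ℕ)
    (w : κ → Bool) (h : Hist (κ ⊕ ι)) (ψ : (κ → Bool) → Hist (κ ⊕ ι) → ℝ) :
    run KO CV stop v o F w h (fun w h => r * ψ w h) =
      r * run KO CV stop v o F w h ψ := by
  induction F generalizing w h with
  | zero => simp only [run]; split_ifs <;> simp
  | succ F ih =>
    simp only [run]
    split_ifs
    · simp
    · rw [mul_add, Finset.mul_sum]
      simp only [ih]

theorem arr_mono (F : ℕ) (w₀ : κ → Bool) (v₀ : ι → Bool) (h₀ : Hist (κ ⊕ ι)) (h' : Hist ι)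
    {ψ ψ' : (κ → Bool) → Hist (κ ⊕ ι) → ℝ} (hψ : ∀ w h, ψ w h ≤ ψ' w h) :
    arr KO CV stop F w₀ v₀ h₀ h' ψ ≤ arr KO CV stop F w₀ v₀ h₀ h' ψ' := by
  induction h' generalizing ψ ψ' with
  | nil => exact hψ _ _
  | cons p h' ih =>
    obtain ⟨o, i⟩ := p
    exact ih fun w h => run_mono KO CV stop _ _ _ _ _ fun w1 h1 => hψ _ _

theorem arr_zero (F : ℕ) (w₀ : κ → Bool) (v₀ : ι → Bool) (h₀ : Hist (κ ⊕ ι)) (h' : Hist ι) :
    arr KO CV stop F w₀ v₀ h₀ h' (fun _ _ => 0) = 0 := by
  induction h' with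
  | nil => rfl
  | cons p h' ih =>
    obtain ⟨o, i⟩ := p
    simp only [arr]
    have h1 : ∀ w h, run KO CV stop (pos v₀ h') o F w h (fun _ _ => 0) = 0 := by
      intro w h
      have := run_mul KO CV stop 0 (pos v₀ h') o F w h (fun _ _ => 0)
      simpa using this
    simp only [h1]
    exact ih

theorem arr_nonneg (F : ℕ) (w₀ : κ → Bool) (v₀ : ι → Bool) (h₀ : Hist (κ ⊕ ι)) (h' : Hist ι)
    {ψ : (κ → Bool) → Hist (κ ⊕ ι) → ℝ} (hψ : ∀ w h, 0 ≤ ψ w h) :
    0 ≤ arr KO CV stop F w₀ v₀ h₀ h' ψ := by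
  rw [← arr_zero KO CV stop F w₀ v₀ h₀ h']
  exact arr_mono KO CV stop F w₀ v₀ h₀ h' hψ

theorem arr_sum {α : Type} (S : Finset α) (F : ℕ) (w₀ : κ → Bool) (v₀ : ι → Bool)
    (h₀ : Hist (κ ⊕ ι)) (h' : Hist ι) (ψ : α → (κ → Bool) → Hist (κ ⊕ ι) → ℝ) :
    arr KO CV stop F w₀ v₀ h₀ h' (fun w h => ∑ s ∈ S, ψ s w h) =
      ∑ s ∈ S, arr KO CV stop F w₀ v₀ h₀ h' (ψ s) := by
  induction h' generalizing ψ with
  | nil => rfl
  | cons p h' ih =>
    obtain ⟨o, i⟩ := p
    simp only [arr]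
    simp only [run_sum]
    rw [ih]

theorem arr_mul (r : ℝ) (F : ℕ) (w₀ : κ → Bool) (v₀ : ι → Bool)
    (h₀ : Hist (κ ⊕ ι)) (h' : Hist ι) (ψ : (κ → Bool) → Hist (κ ⊕ ι) → ℝ) :
    arr KO CV stop F w₀ v₀ h₀ h' (fun w h => r * ψ w h) =
      r * arr KO CV stop F w₀ v₀ h₀ h' ψ := by
  induction h' generalizing ψ with
  | nil => rfl
  | cons p h' ih =>
    obtain ⟨o, i⟩ := p
    simp only [arr]
    simp only [run_mul]
    rw [ih]

variable {c θ : ℕ}

theorem run_sub {m : Hist (κ ⊕ ι) → ℝ} (hm : IsFlow c q θ m) (v : ι → Bool)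
    (o : Finset ι × ℕ) (F : ℕ) (w : κ → Bool) (h : Hist (κ ⊕ ι)) :
    run KO CV stop v o F w h (fun w1 h1 => ∑ i ∈ o.1, m ((obs KO CV w1 v o, inr i) :: h1)) ≤
      m h := by
  have key : ∀ (w : κ → Bool) (h : Hist (κ ⊕ ι)),
      ∑ i ∈ o.1, m ((obs KO CV w v o, inr i) :: h) +
        ∑ a ∈ KO w v, m ((obs KO CV w v o, inl a) :: h) ≤ m h := by
    intro w h
    have := hm.sub h ((KO w v).disjSum o.1) (CV w v o.2)
    rw [Finset.sum_disjSum] at this
    rw [add_comm]
    exact this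
  induction F generalizing w h with
  | zero =>
    simp only [run]
    split_ifs
    · exact hm.nonneg _
    · have h1 := key w h
      have h2 : 0 ≤ ∑ a ∈ KO w v, m ((obs KO CV w v o, inl a) :: h) :=
        Finset.sum_nonneg fun a _ => hm.nonneg _
      linarith
  | succ F ih =>
    simp only [run]
    split_ifs
    · exact hm.nonneg _
    · exact (add_le_add le_rfl (Finset.sum_le_sum fun a _ => ih _ _)).trans (key w h)

/-- the derived flow on the inner cube -/
noncomputable def inner (F : ℕ) (w₀ : κ → Bool) (v₀ : ι → Bool) (h₀ : Hist (κ ⊕ ι))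
    (m : Hist (κ ⊕ ι) → ℝ) (h' : Hist ι) : ℝ :=
  arr KO CV stop F w₀ v₀ h₀ h' fun _ h => m h

theorem inner_sum (F : ℕ) (w₀ : κ → Bool) (v₀ : ι → Bool) (h₀ : Hist (κ ⊕ ι))
    (m : Hist (κ ⊕ ι) → ℝ) (h' : Hist ι) (o : Finset ι × ℕ) (X : Finset ι) :
    ∑ i ∈ X, inner KO CV stop F w₀ v₀ h₀ m ((o, i) :: h') =
      arr KO CV stop F w₀ v₀ h₀ h' (fun w h => run KO CV stop (pos v₀ h') o F w h fun w1 h1 =>
        ∑ i ∈ X, m ((obs KO CV w1 (pos v₀ h') o, inr i) :: h1)) := by
  simp only [run_sum]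
  rw [arr_sum]
  rfl

theorem inner_isFlow {m : Hist (κ ⊕ ι) → ℝ} (hm : IsFlow c q θ m) (F : ℕ) (w₀ : κ → Bool)
    (v₀ : ι → Bool) (h₀ : Hist (κ ⊕ ι)) : IsFlow c q θ (inner KO CV stop F w₀ v₀ h₀ m) := by
  refine ⟨fun h' => arr_nonneg KO CV stop F w₀ v₀ h₀ h' fun _ h => hm.nonneg h, ?_, ?_⟩
  · intro h' S y
    rw [inner_sum]
    exact arr_mono KO CV stop F w₀ v₀ h₀ h' fun w h => run_sub KO CV stop hm _ (S, y) _ _ _
  · intro h' S y X Y hX hY hXc hYc
    rw [inner_sum, inner_sum, ← arr_mul]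
    refine arr_mono KO CV stop F w₀ v₀ h₀ h' fun w h => ?_
    rw [← run_mul]
    refine run_mono KO CV stop _ _ _ _ _ fun w1 h1 => ?_
    have := hm.ratio h1 ((KO w1 (pos v₀ h')).disjSum S) (CV w1 (pos v₀ h') y)
      (X.map ⟨inr, Sum.inr_injective⟩) (Y.map ⟨inr, Sum.inr_injective⟩) ?_ ?_ ?_ ?_
    · simpa [Finset.sum_map, obs] using this
    · intro z hz
      rw [Finset.mem_map] at hz
      obtain ⟨i, hi, rfl⟩ := hz
      exact Finset.inr_mem_disjSum.2 (hX hi)
    · intro z hz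
      rw [Finset.mem_map] at hz
      obtain ⟨i, hi, rfl⟩ := hz
      exact Finset.inr_mem_disjSum.2 (hY hi)
    · rwa [Finset.card_map]
    · rwa [Finset.card_map]

theorem ext_nonneg (A : Str ι q) {m : Hist (κ ⊕ ι) → ℝ} (hm : IsFlow c q θ m) (T N : ℕ)
    (w : κ → Bool) (v : ι → Bool) (h : Hist (κ ⊕ ι)) : 0 ≤ ext A KO CV stop m T N w v h := by
  induction T generalizing N w v h with
  | zero => simp only [ext]; split_ifs; exacts [le_rfl, le_rfl, hm.nonneg _]
  | succ T ih =>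
    simp only [ext]
    split_ifs
    · exact le_rfl
    · exact le_rfl
    · exact add_nonneg (Finset.sum_nonneg fun a _ => ih _ _ _ _)
        (Finset.sum_nonneg fun a _ => ih _ _ _ _)
    · exact hm.nonneg _

theorem ext_mono (A : Str ι q) {m : Hist (κ ⊕ ι) → ℝ} (hm : IsFlow c q θ m) (T N : ℕ)
    (w : κ → Bool) (v : ι → Bool) (h : Hist (κ ⊕ ι)) :
    ext A KO CV stop m T N w v h ≤ ext A KO CV stop m (T + 1) N w v h := by
  induction T generalizing N w v h with
  | zero =>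
    rw [ext.eq_1, ext.eq_2]
    split_ifs
    · exact le_rfl
    · exact le_rfl
    · exact add_nonneg (Finset.sum_nonneg fun a _ => ext_nonneg KO CV stop A hm _ _ _ _ _)
        (Finset.sum_nonneg fun a _ => ext_nonneg KO CV stop A hm _ _ _ _ _)
    · exact le_rfl
  | succ T ih =>
    rw [ext.eq_2, ext.eq_2]
    split_ifs
    · exact le_rfl
    · exact le_rfl
    · exact add_le_add (Finset.sum_le_sum fun a _ => ih _ _ _ _)
        (Finset.sum_le_sum fun a _ => ih _ _ _ _)
    · exact le_rfl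

theorem ext_mono' (A : Str ι q) {m : Hist (κ ⊕ ι) → ℝ} (hm : IsFlow c q θ m) {T T' : ℕ}
    (hT : T ≤ T') (N : ℕ) (w : κ → Bool) (v : ι → Bool) (h : Hist (κ ⊕ ι)) :
    ext A KO CV stop m T N w v h ≤ ext A KO CV stop m T' N w v h := by
  induction hT with
  | refl => exact le_rfl
  | step _ ih => exact ih.trans (ext_mono KO CV stop A hm _ _ _ _ _)

theorem ext_run (A : Str ι q) {m : Hist (κ ⊕ ι) → ℝ} (hm : IsFlow c q θ m) (F N : ℕ)
    (v : ι → Bool) (hv : A.U v) (F1 T : ℕ) (hT : T ≤ F) (hT1 : T ≤ F1)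
    (w : κ → Bool) (h : Hist (κ ⊕ ι)) :
    ext A KO CV stop m T (N + 1) w v h ≤
      run KO CV stop v (improving A.f v, A.f v) F1 w h fun w1 h1 =>
        ∑ i ∈ improving A.f v, ext A KO CV stop m F N w1 (flip v i)
          ((obs KO CV w1 v (improving A.f v, A.f v), inr i) :: h1) := by
  induction T generalizing F1 w h with
  | zero =>
    rw [ext.eq_1, if_neg (by omega), if_pos hv]
    exact run_nonneg KO CV stop _ _ _ _ _ fun w1 h1 =>
      Finset.sum_nonneg fun i _ => ext_nonneg KO CV stop A hm _ _ _ _ _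
  | succ T ih =>
    obtain ⟨F2, rfl⟩ : ∃ F2, F1 = F2 + 1 := ⟨F1 - 1, by omega⟩
    rw [ext.eq_2, run.eq_2, if_neg (by omega), if_pos hv]
    split_ifs
    · exact le_rfl
    · rw [add_comm]
      refine add_le_add (Finset.sum_le_sum fun i _ => ?_) (Finset.sum_le_sum fun a _ => ?_)
      · exact ext_mono' KO CV stop A hm (by omega) _ _ _ _
      · exact ih F2 (by omega) (by omega) _ _

theorem ext_le_loss (A : Str ι q) {m : Hist (κ ⊕ ι) → ℝ} (hm : IsFlow c q θ m) (F : ℕ)
    (w₀ : κ → Bool) (v₀ : ι → Bool) (h₀ : Hist (κ ⊕ ι)) (N : ℕ) (h' : Hist ι) :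
    arr KO CV stop F w₀ v₀ h₀ h' (fun w h => ext A KO CV stop m F N w (pos v₀ h') h) ≤
      loss A (inner KO CV stop F w₀ v₀ h₀ m) N (pos v₀ h') h' := by
  induction N generalizing h' with
  | zero =>
    have h1 : ∀ w h, ext A KO CV stop m F 0 w (pos v₀ h') h = 0 := by
      intro w h
      cases F <;> simp [ext]
    simp only [h1, arr_zero, loss, le_refl]
  | succ N ih =>
    rw [loss]
    by_cases hv : A.U (pos v₀ h')
    · rw [if_pos hv]
      refine (arr_mono KO CV stop F w₀ v₀ h₀ h' fun w h =>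
        ext_run KO CV stop A hm F N (pos v₀ h') hv F F le_rfl le_rfl w h).trans ?_
      simp only [run_sum]
      rw [arr_sum]
      exact Finset.sum_le_sum fun i _ => ih (((improving A.f (pos v₀ h'), A.f (pos v₀ h')), i) :: h')
    · rw [if_neg hv]
      have h1 : ∀ w h, ext A KO CV stop m F (N + 1) w (pos v₀ h') h = m h := by
        intro w h
        cases F <;> simp [ext, hv]
      simp only [h1]
      exact le_rfl

/-- **The external process lemma.** -/
theorem ext_hard {N : ℕ} {ε : ℝ} {Ω : Type} [Fintype Ω] {A : Ω → Str ι q}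
    (hA : HardFor ι c q θ N ε Ω A) {m : Hist (κ ⊕ ι) → ℝ} (hm : IsFlow c q θ m) (T : ℕ)
    (w : κ → Bool) (v : ι → Bool) (h : Hist (κ ⊕ ι)) :
    ∑ ω, ext (A ω) KO CV stop m T N w v h ≤ ε * Fintype.card Ω * m h := by
  have h1 := hA _ (inner_isFlow KO CV stop hm T w v h) v []
  refine le_trans (Finset.sum_le_sum fun ω _ => ?_) h1
  exact ext_le_loss KO CV stop (A ω) hm T w v h N []

end ext

end Pool.Agent.K4H94.SX
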