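import Pool.Agent.K4H94.SX.Step
set_option autoImplicit false
set_option linter.unusedSectionVars false

/-!
Iteration of the construction, the numbers, and the translation to pivot rules.
-/

namespace Pool.Agent.K4H94.SX

open Finset Sum

theorem Hard.mono {ι : Type} [DecidableEq ι] [Fintype ι] {c q θ N : ℕ} {ε ε' : ℝ}
    (H : Hard ι c q θ N ε) (h : ε ≤ ε') : Hard ι c q θ N ε' := by
  obtain ⟨Ω, hΩ, hΩ', A, hA⟩ := H
  refine ⟨Ω, hΩ, hΩ', A, fun m hm x h' => (hA m hm x h').trans ?_⟩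
  have := hm.nonneg h'
  gcongr

/-- the uniform orientation -/
def base (ι : Type) [DecidableEq ι] [Fintype ι] (q : ℕ) : Str ι q where
  f := fun x => Fintype.card ι - (diff x fun _ => true).card
  U := fun _ => False
  tie := by
    intro x i
    have h1 := card_le (diff x fun _ => true)
    have h2 := card_le (diff (flip x i) fun _ => true)
    by_cases hx : x i = true
    · have := diff_flip_of_notMem (s := fun _ => true) hx
      omega
    · have := diff_flip_of_mem (s := fun _ => true) hx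
      omega
  uniq := by
    intro S x y hxy hx hy
    have key : ∀ z : ι → Bool, (∀ i ∈ S, i ∉ improving
        (fun x => Fintype.card ι - (diff x fun _ => true).card) z) → ∀ i ∈ S, z i = true := by
      intro z hz i hi
      by_contra hc
      apply hz i hi
      have h1 := diff_flip_of_mem (s := fun _ => true) hc
      have h2 := card_le (diff z fun _ => true)
      simp only [improving, Finset.mem_filter, Finset.mem_univ, true_and]
      omega
    funext i
    by_cases hi : i ∈ S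
    · rw [key x hx i hi, key y hy i hi]
    · exact hxy i hi
  big := fun _ h => h.elim

theorem hard_base (ι : Type) [DecidableEq ι] [Fintype ι] (c q θ : ℕ) : Hard ι c q θ 0 0 := by
  refine ⟨Unit, inferInstance, inferInstance, fun _ => base ι q, fun m hm x h => ?_⟩
  simp [loss]

theorem hard_iter {q θ : ℕ} {lam δ η : ℝ} (hlam : lam * (1 + θ) = θ) (hη : 0 ≤ η)
    (hδ : ∀ w : Fin (64 * q) → Bool,
      ∑ x : Fin (64 * q) → Bool, lam ^ ((diff w x).card - 8 * q) ≤
        δ * Fintype.card (Fin (64 * q) → Bool))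
    (h1 : δ ≤ η) (h2 : (1 / 4 : ℝ) ^ q * 3 ≤ η) (m₀ L : ℕ) :
    ∃ (ι : Type) (_ : DecidableEq ι) (_ : Fintype ι), Fintype.card ι = 64 * q * L + m₀ ∧
      Hard ι (64 * q) q θ (2 ^ L - 1) (L * 2 ^ L * η) := by
  induction L with
  | zero =>
    refine ⟨Fin m₀, inferInstance, inferInstance, by simp, ?_⟩
    have := hard_base (Fin m₀) (64 * q) q θ
    simpa using this
  | succ L ih =>
    obtain ⟨ι, i1, i2, hcard, H⟩ := ih
    refine ⟨Fin (64 * q) ⊕ ι, inferInstance, inferInstance, ?_, ?_⟩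
    · rw [Fintype.card_sum, hcard, Fintype.card_fin]; ring
    · have hε : (0 : ℝ) ≤ L * 2 ^ L * η := by positivity
      have H2 := hard_step (κ := Fin (64 * q)) hε (Fintype.card_fin _) (by omega) hlam hδ H
      have e : 2 * (2 ^ L - 1) + 1 = 2 ^ (L + 1) - 1 := by
        have : 1 ≤ 2 ^ L := Nat.one_le_two_pow
        rw [pow_succ]; omega
      rw [e] at H2
      refine H2.mono ?_
      have hN : ((2 ^ L - 1 : ℕ) : ℝ) = 2 ^ L - 1 := by
        rw [Nat.cast_sub Nat.one_le_two_pow]; push_cast; rfl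
      have hN0 : (0 : ℝ) ≤ 2 ^ L - 1 := by
        have : (1 : ℝ) ≤ 2 ^ L := one_le_pow₀ (by norm_num)
        linarith
      push_cast
      rw [hN]
      have a1 : (2 ^ L - 1 : ℝ) * δ ≤ (2 ^ L - 1) * η := mul_le_mul_of_nonneg_left h1 hN0
      have a2 : (1 / 4 : ℝ) ^ q * (2 * (2 ^ L - 1) + 3) ≤ 2 ^ L * η := by
        have b1 : (1 / 4 : ℝ) ^ q * (2 * (2 ^ L - 1) + 3) ≤ (1 / 4 : ℝ) ^ q * (3 * 2 ^ L) := by
          apply mul_le_mul_of_nonneg_left _ (by positivity)
          linarith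
        have b2 : (1 / 4 : ℝ) ^ q * (3 * 2 ^ L) = ((1 / 4 : ℝ) ^ q * 3) * 2 ^ L := by ring
        have b3 : ((1 / 4 : ℝ) ^ q * 3) * 2 ^ L ≤ η * 2 ^ L :=
          mul_le_mul_of_nonneg_right h2 (by positivity)
        linarith
      have a3 : ((L : ℝ) + 1) * 2 ^ (L + 1) * η = 2 * (L * 2 ^ L * η) + 2 * 2 ^ L * η := by
        rw [pow_succ]; ring
      rw [a3]
      nlinarith

/-- the numbers -/
theorem delta_bound (q θ t : ℕ) (hθ : 1 ≤ θ) (ht : (1 + θ) * t ≤ 8 * q)
    (w : Fin (64 * q) → Bool) :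
    ∑ x : Fin (64 * q) → Bool, ((θ : ℝ) / (1 + θ)) ^ ((diff w x).card - 8 * q) ≤
      (1 / 2) ^ t * Fintype.card (Fin (64 * q) → Bool) := by
  set lam : ℝ := (θ : ℝ) / (1 + θ) with hlam
  have hθ' : (1 : ℝ) ≤ θ := by exact_mod_cast hθ
  have hlam0 : 0 < lam := by rw [hlam]; positivity
  have hlam1 : lam ≤ 1 := by
    rw [hlam, div_le_one (by linarith)]; linarith
  set x : ℝ := 1 / (1 + θ) with hx
  have hx0 : 0 < x := by rw [hx]; positivity
  have hx1 : x ≤ 1 / 2 := by
    rw [hx]; apply one_div_le_one_div_of_le (by norm_num); linarith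
  have hlx : lam = 1 - x := by rw [hlam, hx]; field_simp; ring
  have h1 : ∀ y : Fin (64 * q) → Bool, lam ^ ((diff w y).card - 8 * q) ≤
      lam⁻¹ ^ (8 * q) * lam ^ (diff w y).card := by
    intro y
    by_cases hy : 8 * q ≤ (diff w y).card
    · have : lam ^ (diff w y).card = lam ^ (8 * q) * lam ^ ((diff w y).card - 8 * q) := by
        rw [← pow_add]; congr 1; omega
      rw [this, ← mul_assoc, ← mul_pow, inv_mul_cancel₀ hlam0.ne', one_pow, one_mul]
    · have e0 : (diff w y).card - 8 * q = 0 := by omega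
      rw [e0, pow_zero]
      have : lam⁻¹ ^ (8 * q) = lam⁻¹ ^ (8 * q - (diff w y).card) * lam⁻¹ ^ (diff w y).card := by
        rw [← pow_add]; congr 1; omega
      rw [this, mul_assoc, ← mul_pow, inv_mul_cancel₀ hlam0.ne', one_pow, mul_one]
      exact one_le_pow₀ ((one_le_inv₀ hlam0).2 hlam1)
  refine (Finset.sum_le_sum fun y _ => h1 y).trans ?_
  rw [← Finset.mul_sum, sum_pow_diff, Fintype.card_fun, Fintype.card_bool, Fintype.card_fin]
  push_cast
  -- it remains to compare the bases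
  have h2 : lam⁻¹ ^ (8 * q) * (1 + lam) ^ (64 * q) =
      (lam⁻¹ * ((1 + lam) / 2) ^ 8) ^ (8 * q) * 2 ^ (64 * q) := by
    rw [mul_pow, ← pow_mul, mul_assoc, show 8 * (8 * q) = 64 * q by ring, ← mul_pow]
    congr 2
    ring
  rw [h2]
  apply mul_le_mul_of_nonneg_right _ (by positivity)
  have h3 : ((1 + lam) / 2) ^ 8 * (1 + x) ≤ lam := by
    rw [hlx]
    have e1 : (1 + (1 - x)) / 2 = 1 - x / 2 := by ring
    rw [e1]
    have s1 : (1 - x / 2) ^ 2 ≤ 1 - 7 / 8 * x := by nlinarith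
    have s1' : 0 ≤ (1 - x / 2) ^ 2 := sq_nonneg _
    have s2 : ((1 - x / 2) ^ 2) ^ 2 ≤ 1 - 5 / 4 * x := by
      have : ((1 - x / 2) ^ 2) ^ 2 ≤ (1 - 7 / 8 * x) ^ 2 := pow_le_pow_left₀ s1' s1 2
      nlinarith
    have s2' : 0 ≤ ((1 - x / 2) ^ 2) ^ 2 := sq_nonneg _
    have s3 : (((1 - x / 2) ^ 2) ^ 2) ^ 2 ≤ (1 - 5 / 4 * x) ^ 2 := pow_le_pow_left₀ s2' s2 2
    have e2 : (1 - x / 2) ^ 8 = (((1 - x / 2) ^ 2) ^ 2) ^ 2 := by ring
    rw [e2]
    have s4 : (((1 - x / 2) ^ 2) ^ 2) ^ 2 * (1 + x) ≤ (1 - 5 / 4 * x) ^ 2 * (1 + x) :=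
      mul_le_mul_of_nonneg_right s3 (by linarith)
    refine s4.trans ?_
    have s5 : (1 - 5 / 4 * x) * (1 + x) ≤ 1 := by nlinarith
    have s6 : 0 ≤ 1 - 5 / 4 * x := by linarith
    have s7 : (1 - 5 / 4 * x) * ((1 - 5 / 4 * x) * (1 + x)) ≤ (1 - 5 / 4 * x) * 1 :=
      mul_le_mul_of_nonneg_left s5 s6
    nlinarith
  have h4 : lam⁻¹ * ((1 + lam) / 2) ^ 8 ≤ (1 + x)⁻¹ := by
    rw [inv_mul_le_iff₀ hlam0]
    rw [le_mul_inv_iff₀ (by linarith)]
    exact h3
  have h5 : (2 : ℝ) ^ t ≤ (1 + x) ^ (8 * q) := by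
    have b1 : (2 : ℝ) ≤ (1 + x) ^ (1 + θ) := by
      have := one_add_mul_le_pow (a := x) (by linarith) (1 + θ)
      have e3 : ((1 + θ : ℕ) : ℝ) * x = 1 := by
        rw [hx]; push_cast; field_simp
      rw [e3] at this
      linarith
    calc (2 : ℝ) ^ t ≤ ((1 + x) ^ (1 + θ)) ^ t := pow_le_pow_left₀ (by norm_num) b1 t
      _ = (1 + x) ^ ((1 + θ) * t) := by rw [pow_mul]
      _ ≤ (1 + x) ^ (8 * q) := pow_le_pow_right₀ (by linarith) ht
  calc (lam⁻¹ * ((1 + lam) / 2) ^ 8) ^ (8 * q) ≤ ((1 + x)⁻¹) ^ (8 * q) :=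
        pow_le_pow_left₀ (by positivity) h4 _
    _ = ((1 + x) ^ (8 * q))⁻¹ := by rw [inv_pow]
    _ ≤ (2 ^ t)⁻¹ := by
        apply inv_anti₀ (by positivity) h5
    _ = (1 / 2) ^ t := by rw [one_div, inv_pow]

/-- random structures on `n`-cubes -/
theorem hard_numbers (q θ t L m₀ : ℕ) (hθ : 1 ≤ θ) (ht : (1 + θ) * t ≤ 8 * q) (ht2 : 2 ≤ t)
    (hq : t ≤ q) :
    ∃ (ι : Type) (_ : DecidableEq ι) (_ : Fintype ι), Fintype.card ι = 64 * q * L + m₀ ∧
      Hard ι (64 * q) q θ (2 ^ L - 1) (L * 2 ^ L * (1 / 2) ^ t) := by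
  have hθ' : (1 : ℝ) ≤ θ := by exact_mod_cast hθ
  refine hard_iter (lam := (θ : ℝ) / (1 + θ)) (δ := (1 / 2) ^ t) ?_ (by positivity)
    (delta_bound q θ t hθ ht) le_rfl ?_ m₀ L
  · field_simp
  · have h1 : (1 / 4 : ℝ) ^ q ≤ (1 / 4) ^ t :=
      pow_le_pow_of_le_one (by norm_num) (by norm_num) hq
    have h2 : (1 / 4 : ℝ) ^ t = (1 / 2) ^ t * (1 / 2) ^ t := by rw [← mul_pow]; norm_num
    have h3 : (1 / 2 : ℝ) ^ t ≤ (1 / 2) ^ 2 :=
      pow_le_pow_of_le_one (by norm_num) (by norm_num) ht2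
    have h4 : (0 : ℝ) < (1 / 2) ^ t := by positivity
    nlinarith

/-! ### Pivot rules -/

/-- the probability of at least `t` further steps from the vertex `x` after the vertices `l` -/
noncomputable def prob {n : ℕ} (f : (Fin n → Bool) → ℕ)
    (p : List ((Fin n → Bool) × ℕ × Finset (Fin n)) → Fin n → ℝ) :
    ℕ → (Fin n → Bool) → List ((Fin n → Bool) × ℕ × Finset (Fin n)) → ℝ
  | 0, _, _ => 1
  | t + 1, x, l => ∑ i ∈ improving f x, p ((x, f x, improving f x) :: l) i *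
      prob f p t (flip x i) ((x, f x, improving f x) :: l)

section rule

variable {n : ℕ} {ι : Type} [DecidableEq ι] [Fintype ι]
  (p : List ((Fin n → Bool) × ℕ × Finset (Fin n)) → Fin n → ℝ) (e : ι ≃ Fin n)
  (x₀ : Fin n → Bool)

/-- a number of the vertex -/
noncomputable def enc {n : ℕ} (x : Fin n → Bool) : ℕ := (Fintype.equivFin (Fin n → Bool) x : ℕ)

theorem enc_lt {n : ℕ} (x : Fin n → Bool) : enc x < Fintype.card (Fin n → Bool) :=
  (Fintype.equivFin (Fin n → Bool) x).2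

theorem enc_inj {n : ℕ} : Function.Injective (enc (n := n)) := fun x y h =>
  (Fintype.equivFin (Fin n → Bool)).injective (Fin.ext h)

/-- the value on the `n`-cube -/
noncomputable def val {n : ℕ} (x : Fin n → Bool) (y : ℕ) : ℕ :=
  Fintype.card (Fin n → Bool) * y + enc x

/-- the vertex after a history -/
def posF : Hist ι → (Fin n → Bool)
  | [] => x₀
  | (_, i) :: h => flip (posF h) (e i)

/-- the translation of a history -/
noncomputable def tr : Hist ι → List ((Fin n → Bool) × ℕ × Finset (Fin n))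
  | [] => []
  | ((S, y), _) :: h => (posF e x₀ h, val (posF e x₀ h) y, S.map e.toEmbedding) :: tr h

open Classical in
/-- the flow of a rule -/
noncomputable def flow : Hist ι → ℝ
  | [] => 1
  | ((S, y), i) :: h => flow h * p (tr e x₀ (((S, y), i) :: h)) (e i)

theorem flow_isFlow {c q θ : ℕ} (hp0 : ∀ l i, 0 ≤ p l i)
    (hp1 : ∀ x y S l, S.Nonempty → ∑ i ∈ S, p ((x, y, S) :: l) i = 1)
    (hr : ∀ x y S l, ∀ X ⊆ S, ∀ Y ⊆ S, X.card ≤ c → q < Y.card →
      ∑ i ∈ X, p ((x, y, S) :: l) i ≤ θ * ∑ i ∈ Y, p ((x, y, S) :: l) i) :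
    IsFlow c q θ (flow p e x₀) := by
  have h0 : ∀ h : Hist ι, 0 ≤ flow p e x₀ h := by
    intro h
    induction h with
    | nil => simp [flow]
    | cons a h ih =>
      obtain ⟨⟨S, y⟩, i⟩ := a
      rw [flow]
      exact mul_nonneg ih (hp0 _ _)
  refine ⟨h0, ?_, ?_⟩
  · intro h S y
    simp only [flow, tr]
    rw [← Finset.mul_sum]
    rcases S.eq_empty_or_nonempty with rfl | hS
    · simpa using h0 h
    · have h1 := hp1 (posF e x₀ h) (val (posF e x₀ h) y) (S.map e.toEmbedding) (tr e x₀ h)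
        (by simpa using hS)
      rw [Finset.sum_map] at h1
      have h2 : ∑ i ∈ S, p ((posF e x₀ h, val (posF e x₀ h) y, S.map e.toEmbedding) ::
          tr e x₀ h) (e i) = 1 := h1
      rw [h2, mul_one]
  · intro h S y X Y hX hY hXc hYc
    simp only [flow, tr]
    rw [← Finset.mul_sum, ← Finset.mul_sum]
    have h1 := hr (posF e x₀ h) (val (posF e x₀ h) y) (S.map e.toEmbedding) (tr e x₀ h)
      (X.map e.toEmbedding) (Finset.map_subset_map.2 hX) (Y.map e.toEmbedding)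
      (Finset.map_subset_map.2 hY) (by rwa [Finset.card_map]) (by rwa [Finset.card_map])
    rw [Finset.sum_map, Finset.sum_map] at h1
    calc flow p e x₀ h * ∑ i ∈ X, p ((posF e x₀ h, val (posF e x₀ h) y,
          S.map e.toEmbedding) :: tr e x₀ h) (e i)
        ≤ flow p e x₀ h * (θ * ∑ i ∈ Y, p ((posF e x₀ h, val (posF e x₀ h) y,
          S.map e.toEmbedding) :: tr e x₀ h) (e i)) := mul_le_mul_of_nonneg_left h1 (h0 h)
      _ = _ := by ring

variable {q : ℕ} (A : Str ι q)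

/-- the objective function on the `n`-cube -/
noncomputable def fF (x : Fin n → Bool) : ℕ := val x (A.f (x ∘ e))

theorem flip_comp (x : Fin n → Bool) (i : ι) : flip x (e i) ∘ e = flip (x ∘ e) i := by
  funext j
  by_cases hj : j = i
  · subst hj; simp [flip]
  · have : e j ≠ e i := fun h => hj (e.injective h)
    simp [flip, hj, this]

theorem val_lt {x y : Fin n → Bool} {a b : ℕ} (hab : a ≠ b) : val x a < val y b ↔ a < b := by
  unfold val
  exact (MM_step (enc_lt x) (enc_lt y) hab).1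

theorem fF_inj : Function.Injective (fF e A) := by
  intro x y h
  unfold fF at h
  by_cases hab : A.f (x ∘ e) = A.f (y ∘ e)
  · unfold val at h
    rw [hab] at h
    exact enc_inj (by omega)
  · unfold val at h
    exact absurd h.symm (MM_step (enc_lt x) (enc_lt y) hab).2

theorem fF_improving (x : Fin n → Bool) :
    improving (fF e A) x = (improving A.f (x ∘ e)).map e.toEmbedding := by
  ext j
  obtain ⟨i, rfl⟩ := e.surjective j
  have h1 : e i ∈ (improving A.f (x ∘ e)).map e.toEmbedding ↔ i ∈ improving A.f (x ∘ e) := by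
    simp
  rw [h1]
  simp only [improving, Finset.mem_filter, Finset.mem_univ, true_and]
  unfold fF
  rw [flip_comp]
  exact val_lt (A.tie _ _).symm

theorem fF_uso (U : Finset (Fin n)) (x : Fin n → Bool) : ∃! y : Fin n → Bool,
    (∀ i, i ∉ U → y i = x i) ∧ ∀ i ∈ U, fF e A (flip y i) < fF e A y := by
  obtain ⟨y, hy, hmax⟩ := Finset.exists_max_image
    (univ.filter fun y : Fin n → Bool => ∀ i, i ∉ U → y i = x i) (fF e A) ⟨x, by simp⟩
  rw [Finset.mem_filter] at hy
  have hlt : ∀ i ∈ U, fF e A (flip y i) < fF e A y := by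
    intro i hi
    have h1 := hmax (flip y i) (by
      rw [Finset.mem_filter]
      refine ⟨mem_univ _, fun j hj => ?_⟩
      have : j ≠ i := fun h => hj (h ▸ hi)
      rw [flip_ne y this]
      exact hy.2 j hj)
    refine lt_of_le_of_ne h1 fun h2 => ?_
    have := congrFun (fF_inj e A h2) i
    rw [flip_same] at this
    revert this
    cases y i <;> simp
  refine ⟨y, ⟨hy.2, hlt⟩, ?_⟩
  rintro z ⟨hz1, hz2⟩
  have key : ∀ u : Fin n → Bool, (∀ i ∈ U, fF e A (flip u i) < fF e A u) →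
      ∀ i ∈ U.map e.symm.toEmbedding, i ∉ improving A.f (u ∘ e) := by
    intro u hu i hi hc
    rw [Finset.mem_map] at hi
    obtain ⟨j, hj, rfl⟩ := hi
    have h1 := hu j hj
    have h2 : j ∈ improving (fF e A) u := by
      rw [fF_improving, Finset.mem_map]
      exact ⟨e.symm j, hc, by simp⟩
    simp only [improving, Finset.mem_filter, Finset.mem_univ, true_and] at h2
    omega
  have h3 := A.uniq (U.map e.symm.toEmbedding) (z ∘ e) (y ∘ e) (by
    intro i hi
    have : e i ∉ U := by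
      intro h; apply hi; rw [Finset.mem_map]; exact ⟨e i, h, by simp⟩
    simp only [Function.comp]
    rw [hz1 _ this, hy.2 _ this]) (key z hz2) (key y hlt)
  funext j
  have := congrFun h3 (e.symm j)
  simpa using this

theorem prob_nonneg (f : (Fin n → Bool) → ℕ) (hp0 : ∀ l i, 0 ≤ p l i) (T : ℕ)
    (x : Fin n → Bool) (l : List ((Fin n → Bool) × ℕ × Finset (Fin n))) :
    0 ≤ prob f p T x l := by
  induction T generalizing x l with
  | zero => rw [prob]; norm_num
  | succ T ih => rw [prob]; exact Finset.sum_nonneg fun i _ => mul_nonneg (hp0 _ _) (ih _ _)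

theorem flow_le (hp0 : ∀ l i, 0 ≤ p l i)
    (hp1 : ∀ x y S l, S.Nonempty → ∑ i ∈ S, p ((x, y, S) :: l) i = 1)
    (hf0 : ∀ h, 0 ≤ flow p e x₀ h) (T : ℕ) (h : Hist ι) :
    flow p e x₀ h ≤ loss A (flow p e x₀) T (posF e x₀ h ∘ e) h +
      flow p e x₀ h * prob (fF e A) p T (posF e x₀ h) (tr e x₀ h) := by
  induction T generalizing h with
  | zero => simp [loss, prob]
  | succ T ih =>
    rw [loss]
    by_cases hU : A.U (posF e x₀ h ∘ e)
    · rw [if_pos hU, prob, fF_improving, Finset.sum_map, Finset.mul_sum]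
      set x := posF e x₀ h with hx
      set S := improving A.f (x ∘ e) with hS
      have hne : S.Nonempty := by
        exact Finset.card_pos.1 (lt_of_le_of_lt (Nat.zero_le _) (A.big _ hU))
      have h1 := hp1 x (fF e A x) (S.map e.toEmbedding) (tr e x₀ h) (by simpa using hne)
      rw [Finset.sum_map] at h1
      have hch : ∀ i, flow p e x₀ (((S, A.f (x ∘ e)), i) :: h) =
          flow p e x₀ h * p ((x, fF e A x, S.map e.toEmbedding) :: tr e x₀ h)
            (e.toEmbedding i) := fun i => rfl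
      have h2 : flow p e x₀ h = ∑ i ∈ S, flow p e x₀ (((S, A.f (x ∘ e)), i) :: h) := by
        simp only [hch]
        rw [← Finset.mul_sum, h1, mul_one]
      have h3 : ∑ i ∈ S, flow p e x₀ (((S, A.f (x ∘ e)), i) :: h) ≤
          ∑ i ∈ S, (loss A (flow p e x₀) T (flip (x ∘ e) i) (((S, A.f (x ∘ e)), i) :: h) +
            flow p e x₀ h * (p ((x, fF e A x, S.map e.toEmbedding) :: tr e x₀ h)
            (e.toEmbedding i) * prob (fF e A) p T (flip x (e.toEmbedding i))
              ((x, fF e A x, S.map e.toEmbedding) :: tr e x₀ h))) := by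
        refine Finset.sum_le_sum fun i _ => ?_
        have h4 := ih (((S, A.f (x ∘ e)), i) :: h)
        have e1 : posF e x₀ (((S, A.f (x ∘ e)), i) :: h) = flip x (e i) := rfl
        have e2 : tr e x₀ (((S, A.f (x ∘ e)), i) :: h) =
            (x, fF e A x, S.map e.toEmbedding) :: tr e x₀ h := rfl
        rw [e1, e2, flip_comp] at h4
        rw [← mul_assoc, ← hch]
        exact h4
      rw [Finset.sum_add_distrib] at h3
      calc flow p e x₀ h = ∑ i ∈ S, flow p e x₀ (((S, A.f (x ∘ e)), i) :: h) := h2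
        _ ≤ _ := h3
    · rw [if_neg hU]
      have := mul_nonneg (hf0 h) (prob_nonneg p (fF e A) hp0 (T + 1) (posF e x₀ h)
        (tr e x₀ h))
      linarith

theorem prob_anti (f : (Fin n → Bool) → ℕ) (hp0 : ∀ l i, 0 ≤ p l i)
    (hp1 : ∀ x y S l, S.Nonempty → ∑ i ∈ S, p ((x, y, S) :: l) i = 1) (T : ℕ)
    (x : Fin n → Bool) (l : List ((Fin n → Bool) × ℕ × Finset (Fin n))) :
    prob f p (T + 1) x l ≤ prob f p T x l := by
  induction T generalizing x l with
  | zero =>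
    rw [prob, prob]
    simp only [prob, mul_one]
    rcases (improving f x).eq_empty_or_nonempty with h | h
    · rw [h]; simp
    · rw [hp1 _ _ _ _ h]
  | succ T ih =>
    rw [prob, prob]
    exact Finset.sum_le_sum fun i _ => mul_le_mul_of_nonneg_left (ih _ _) (hp0 _ _)

theorem prob_anti' (f : (Fin n → Bool) → ℕ) (hp0 : ∀ l i, 0 ≤ p l i)
    (hp1 : ∀ x y S l, S.Nonempty → ∑ i ∈ S, p ((x, y, S) :: l) i = 1) {T T' : ℕ} (h : T ≤ T')
    (x : Fin n → Bool) (l : List ((Fin n → Bool) × ℕ × Finset (Fin n))) :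
    prob f p T' x l ≤ prob f p T x l := by
  induction h with
  | refl => exact le_rfl
  | step _ ih => exact (prob_anti p f hp0 hp1 _ x l).trans ih

end rule

/-- the general theorem for pivot rules -/
theorem rules_slow {n : ℕ} (p : List ((Fin n → Bool) × ℕ × Finset (Fin n)) → Fin n → ℝ)
    (x₀ : Fin n → Bool) (q θ t L : ℕ) (hθ : 1 ≤ θ) (ht : (1 + θ) * t ≤ 8 * q) (ht2 : 2 ≤ t)
    (hq : t ≤ q) (hn : 64 * q * L ≤ n) (hp0 : ∀ l i, 0 ≤ p l i)
    (hp1 : ∀ x y S l, S.Nonempty → ∑ i ∈ S, p ((x, y, S) :: l) i = 1)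
    (hr : ∀ x y S l, ∀ X ⊆ S, ∀ Y ⊆ S, X.card ≤ 64 * q → q < Y.card →
      ∑ i ∈ X, p ((x, y, S) :: l) i ≤ θ * ∑ i ∈ Y, p ((x, y, S) :: l) i) :
    ∃ f : (Fin n → Bool) → ℕ, Function.Injective f ∧
      (∀ (U : Finset (Fin n)) (x : Fin n → Bool), ∃! y : Fin n → Bool,
        (∀ i, i ∉ U → y i = x i) ∧ ∀ i ∈ U, f (flip y i) < f y) ∧
      1 - L * 2 ^ L * (1 / 2) ^ t ≤ prob f p (2 ^ L - 1) x₀ [] := by
  obtain ⟨ι, i1, i2, hcard, Ω, hΩ, hΩ', A, hA⟩ :=
    hard_numbers q θ t L (n - 64 * q * L) hθ ht ht2 hq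
  have hcard' : Fintype.card ι = Fintype.card (Fin n) := by
    rw [hcard, Fintype.card_fin]; omega
  let e : ι ≃ Fin n := Fintype.equivOfCardEq hcard'
  have hflow := flow_isFlow p e x₀ (c := 64 * q) (q := q) (θ := θ) hp0 hp1 hr
  have h1 := hA _ hflow (x₀ ∘ e) []
  have h2 : ∃ ω, loss (A ω) (flow p e x₀) (2 ^ L - 1) (x₀ ∘ e) [] ≤
      L * 2 ^ L * (1 / 2) ^ t := by
    by_contra hc
    push Not at hc
    have h3 : ∑ _ω : Ω, (L * 2 ^ L * (1 / 2) ^ t : ℝ) <
        ∑ ω, loss (A ω) (flow p e x₀) (2 ^ L - 1) (x₀ ∘ e) [] :=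
      Finset.sum_lt_sum_of_nonempty Finset.univ_nonempty fun ω _ => hc ω
    rw [Finset.sum_const, Finset.card_univ, nsmul_eq_mul] at h3
    have h4 : flow p e x₀ [] = 1 := rfl
    rw [h4, mul_one] at h1
    linarith
  obtain ⟨ω, hω⟩ := h2
  refine ⟨fF e (A ω), fF_inj e (A ω), fF_uso e (A ω), ?_⟩
  have h5 := flow_le p e x₀ (A ω) hp0 hp1 hflow.nonneg (2 ^ L - 1) []
  have h4 : flow p e x₀ [] = 1 := rfl
  have h6 : posF e x₀ [] = x₀ := rfl
  have h7 : tr e x₀ [] = [] := rfl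
  rw [h4, h6, h7, one_mul] at h5
  linarith

end Pool.Agent.K4H94.SX
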