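import Pool.Agent.K4H94.SX.Comb
set_option autoImplicit false
set_option linter.unusedSectionVars false

/-!
The ball is not entered too early.
-/

namespace Pool.Agent.K4H94.SX

open Finset Sum

section counting

variable {κ : Type} [DecidableEq κ] [Fintype κ]

theorem sum_prod_bool (φ : κ → Bool → ℝ) :
    ∑ s : κ → Bool, ∏ i, φ i (s i) = ∏ i, (φ i true + φ i false) := by
  rw [← Fintype.piFinset_univ, ← Finset.prod_univ_sum]
  refine Finset.prod_congr rfl fun i _ => ?_
  simp

theorem sum_pow_diff (lam : ℝ) (w : κ → Bool) :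
    ∑ x : κ → Bool, lam ^ (diff w x).card = (1 + lam) ^ Fintype.card κ := by
  have h1 : ∀ x : κ → Bool, lam ^ (diff w x).card =
      ∏ i, (if w i ≠ x i then lam else 1) := by
    intro x
    rw [Finset.prod_ite, Finset.prod_const, Finset.prod_const_one, mul_one]
    rfl
  simp only [h1]
  have h2 := sum_prod_bool (κ := κ) (fun i b => if w i ≠ b then lam else 1)
  rw [h2]
  have h3 : ∀ i : κ, ((if w i ≠ true then lam else 1) + (if w i ≠ false then lam else 1) : ℝ) =
      1 + lam := by
    intro i
    cases w i <;> simp [add_comm]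
  simp only [h3]
  rw [Finset.prod_const, Finset.card_univ]

theorem sum_pow_agr (w r : κ → Bool) :
    ∑ s : κ → Bool, (1 / 2 : ℝ) ^ (agr w r s).card =
      2 ^ Fintype.card κ * (3 / 4) ^ (diff w r).card := by
  have h1 : ∀ s : κ → Bool, (1 / 2 : ℝ) ^ (agr w r s).card =
      ∏ i, (if w i ≠ r i ∧ s i = r i then (1 / 2 : ℝ) else 1) := by
    intro x
    rw [Finset.prod_ite, Finset.prod_const, Finset.prod_const_one, mul_one]
    rfl
  simp only [h1]
  have h2 := sum_prod_bool (κ := κ) (fun i b => if w i ≠ r i ∧ b = r i then (1 / 2 : ℝ) else 1)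
  rw [h2]
  have h3 : ∀ i : κ, ((if w i ≠ r i ∧ true = r i then (1 / 2 : ℝ) else 1) +
      (if w i ≠ r i ∧ false = r i then (1 / 2 : ℝ) else 1)) =
      2 * (if w i ≠ r i then 3 / 4 else 1) := by
    intro i
    cases w i <;> cases r i <;> norm_num
  simp only [h3]
  rw [Finset.prod_mul_distrib, Finset.prod_const, Finset.card_univ, Finset.prod_ite,
    Finset.prod_const, Finset.prod_const_one, mul_one]
  rfl

/-- a random `s` rarely agrees with `r` on few of the many coordinates in which `w` and `r`
differ -/
theorem card_agr_le (q : ℕ) (w r : κ → Bool) (h : 8 * q ≤ (diff w r).card) :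
    ∑ s : κ → Bool, (if (agr w r s).card ≤ q then (1 : ℝ) else 0) ≤
      (1 / 4) ^ q * 2 ^ Fintype.card κ := by
  have h1 : ∀ s : κ → Bool, (if (agr w r s).card ≤ q then (1 : ℝ) else 0) ≤
      2 ^ q * (1 / 2) ^ (agr w r s).card := by
    intro s
    split_ifs with hs
    · have h2 : (2 : ℝ) ^ q = 2 ^ (q - (agr w r s).card) * 2 ^ (agr w r s).card := by
        rw [← pow_add]; congr 1; omega
      rw [h2, mul_assoc, ← mul_pow]
      norm_num
      exact one_le_pow₀ (by norm_num)
    · positivity
  refine (Finset.sum_le_sum fun s _ => h1 s).trans ?_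
  rw [← Finset.mul_sum, sum_pow_agr]
  have h3 : (3 / 4 : ℝ) ^ (diff w r).card ≤ (3 / 4) ^ (8 * q) :=
    pow_le_pow_of_le_one (by norm_num) (by norm_num) h
  have h4 : (2 : ℝ) ^ q * (3 / 4) ^ (8 * q) ≤ (1 / 4) ^ q := by
    rw [pow_mul, ← mul_pow]
    exact pow_le_pow_left₀ (by norm_num) (by norm_num) q
  calc (2 : ℝ) ^ q * (2 ^ Fintype.card κ * (3 / 4) ^ (diff w r).card)
      ≤ 2 ^ q * (2 ^ Fintype.card κ * (3 / 4) ^ (8 * q)) := by gcongr
    _ = (2 ^ q * (3 / 4) ^ (8 * q)) * 2 ^ Fintype.card κ := by ring
    _ ≤ (1 / 4) ^ q * 2 ^ Fintype.card κ := by gcongr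

theorem sum_update {V W : Type} [Fintype V] [DecidableEq V] [Fintype W] [DecidableEq W]
    (G : (V → W) → ℝ) (v : V) :
    ∑ x : W, ∑ r : V → W, G (Function.update r v x) = Fintype.card W * ∑ r : V → W, G r := by
  rw [← Finset.sum_product']
  have h1 : ∑ p ∈ (univ : Finset W) ×ˢ (univ : Finset (V → W)), G (Function.update p.2 v p.1) =
      ∑ p ∈ (univ : Finset W) ×ˢ (univ : Finset (V → W)), G p.2 := by
    refine Finset.sum_nbij' (fun p => (p.2 v, Function.update p.2 v p.1))
      (fun p => (p.2 v, Function.update p.2 v p.1)) ?_ ?_ ?_ ?_ ?_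
    · intro p _; simp
    · intro p _; simp
    · intro p _; simp
    · intro p _; simp
    · intro p _; simp
  rw [h1, Finset.sum_product]
  simp

end counting

section prem

variable {ι κ : Type} [DecidableEq ι] [Fintype ι] [DecidableEq κ] [Fintype κ] {q : ℕ}

/-- first phase -/
def KO1 (q : ℕ) (s : κ → Bool) (r : (ι → Bool) → κ → Bool) (w : κ → Bool) (v : ι → Bool) :
    Finset κ := KB q (r v) s w

def CV1 (q : ℕ) (s : κ → Bool) (r : (ι → Bool) → κ → Bool) (w : κ → Bool) (v : ι → Bool)
    (y : ℕ) : ℕ := MM κ * y + gB q (r v) s w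

/-- the ideal process -/
def KO0 (r : (ι → Bool) → κ → Bool) (w : κ → Bool) (v : ι → Bool) :
    Finset κ := diff w (r v)

def CV0 (r : (ι → Bool) → κ → Bool) (w : κ → Bool) (v : ι → Bool)
    (y : ℕ) : ℕ := MM κ * y + (Fintype.card κ - (diff w (r v)).card)

/-- the observation of a structure -/
def ob (A : Str ι q) (v : ι → Bool) : Finset ι × ℕ := (improving A.f v, A.f v)

open Classical in
/-- the ball is entered with less than `N` inner steps through vertices in `U` -/
noncomputable def prem (A : Str ι q) (s : κ → Bool) (r : (ι → Bool) → κ → Bool)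
    (m : Hist (κ ⊕ ι) → ℝ) :
    ℕ → ℕ → (κ → Bool) → (ι → Bool) → Hist (κ ⊕ ι) → ℝ
  | 0, N, w, _, h => if N = 0 then 0 else if (diff w s).card ≤ q then m h else 0
  | T + 1, N, w, v, h => if N = 0 then 0 else if (diff w s).card ≤ q then m h else
      if A.U v then ∑ a ∈ KO1 q s r w v, prem A s r m T N (flip w a) v
        ((obs (KO1 q s r) (CV1 q s r) w v (ob A v), inl a) :: h) +
      ∑ i ∈ improving A.f v, prem A s r m T (N - 1) w (flip v i)
        ((obs (KO1 q s r) (CV1 q s r) w v (ob A v), inr i) :: h) else 0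

open Classical in
/-- ideal process: far from the target and few agreements -/
noncomputable def t1 (A : Str ι q) (s : κ → Bool) (r : (ι → Bool) → κ → Bool)
    (m : Hist (κ ⊕ ι) → ℝ) :
    ℕ → (κ → Bool) → (ι → Bool) → Hist (κ ⊕ ι) → ℝ
  | 0, w, v, h => if (diff w (r v)).card < 8 * q then 0 else
      if (agr w (r v) s).card ≤ q then m h else 0
  | T + 1, w, v, h => if (diff w (r v)).card < 8 * q then 0 else
      (if (agr w (r v) s).card ≤ q then m h else 0) +
      (∑ a ∈ KO0 r w v, t1 A s r m T (flip w a) v
        ((obs (KO0 r) (CV0 r) w v (ob A v), inl a) :: h) +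
      ∑ i ∈ improving A.f v, t1 A s r m T w (flip v i)
        ((obs (KO0 r) (CV0 r) w v (ob A v), inr i) :: h))

open Classical in
/-- ideal process: close to the target -/
noncomputable def t2 (A : Str ι q) (r : (ι → Bool) → κ → Bool)
    (m : Hist (κ ⊕ ι) → ℝ) :
    ℕ → ℕ → (κ → Bool) → (ι → Bool) → Hist (κ ⊕ ι) → ℝ
  | 0, N, w, v, h => if N = 0 then 0 else if (diff w (r v)).card < 8 * q then m h else 0
  | T + 1, N, w, v, h => if N = 0 then 0 else if (diff w (r v)).card < 8 * q then m h else
      if A.U v then ∑ a ∈ KO0 r w v, t2 A r m T N (flip w a) v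
        ((obs (KO0 r) (CV0 r) w v (ob A v), inl a) :: h) +
      ∑ i ∈ improving A.f v, t2 A r m T (N - 1) w (flip v i)
        ((obs (KO0 r) (CV0 r) w v (ob A v), inr i) :: h) else 0

variable {c θ : ℕ}

theorem sub_obs {m : Hist (κ ⊕ ι) → ℝ} (hm : IsFlow c q θ m)
    (KO : (κ → Bool) → (ι → Bool) → Finset κ) (CV : (κ → Bool) → (ι → Bool) → ℕ → ℕ)
    (w : κ → Bool) (v : ι → Bool) (o : Finset ι × ℕ) (h : Hist (κ ⊕ ι)) :
    ∑ a ∈ KO w v, m ((obs KO CV w v o, inl a) :: h) +
      ∑ i ∈ o.1, m ((obs KO CV w v o, inr i) :: h) ≤ m h := by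
  have := hm.sub h ((KO w v).disjSum o.1) (CV w v o.2)
  rw [Finset.sum_disjSum] at this
  exact this

theorem prem_le_self (A : Str ι q) (s : κ → Bool) (r : (ι → Bool) → κ → Bool)
    {m : Hist (κ ⊕ ι) → ℝ} (hm : IsFlow c q θ m) (T N : ℕ) (w : κ → Bool) (v : ι → Bool)
    (h : Hist (κ ⊕ ι)) : prem A s r m T N w v h ≤ m h := by
  induction T generalizing N w v h with
  | zero =>
    rw [prem]
    split_ifs
    exacts [hm.nonneg _, le_rfl, hm.nonneg _]
  | succ T ih =>
    rw [prem]
    split_ifs
    · exact hm.nonneg _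
    · exact le_rfl
    · exact (add_le_add (Finset.sum_le_sum fun a _ => ih _ _ _ _)
        (Finset.sum_le_sum fun a _ => ih _ _ _ _)).trans
        (sub_obs hm (KO1 q s r) (CV1 q s r) w v (ob A v) h)
    · exact hm.nonneg _

theorem t1_nonneg (A : Str ι q) (s : κ → Bool) (r : (ι → Bool) → κ → Bool)
    {m : Hist (κ ⊕ ι) → ℝ} (hm : IsFlow c q θ m) (T : ℕ) (w : κ → Bool) (v : ι → Bool)
    (h : Hist (κ ⊕ ι)) : 0 ≤ t1 A s r m T w v h := by
  induction T generalizing w v h with
  | zero =>
    rw [t1]
    split_ifs
    exacts [le_rfl, hm.nonneg _, le_rfl]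
  | succ T ih =>
    rw [t1]
    split_ifs
    · exact le_rfl
    · exact add_nonneg (hm.nonneg _) (add_nonneg (Finset.sum_nonneg fun a _ => ih _ _ _)
        (Finset.sum_nonneg fun a _ => ih _ _ _))
    · exact add_nonneg le_rfl (add_nonneg (Finset.sum_nonneg fun a _ => ih _ _ _)
        (Finset.sum_nonneg fun a _ => ih _ _ _))

theorem t2_nonneg (A : Str ι q) (r : (ι → Bool) → κ → Bool)
    {m : Hist (κ ⊕ ι) → ℝ} (hm : IsFlow c q θ m) (T N : ℕ) (w : κ → Bool) (v : ι → Bool)
    (h : Hist (κ ⊕ ι)) : 0 ≤ t2 A r m T N w v h := by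
  induction T generalizing N w v h with
  | zero =>
    rw [t2]
    split_ifs
    exacts [le_rfl, hm.nonneg _, le_rfl]
  | succ T ih =>
    rw [t2]
    split_ifs
    · exact le_rfl
    · exact hm.nonneg _
    · exact add_nonneg (Finset.sum_nonneg fun a _ => ih _ _ _ _)
        (Finset.sum_nonneg fun a _ => ih _ _ _ _)
    · exact le_rfl

theorem obs_eq (A : Str ι q) (s : κ → Bool) (r : (ι → Bool) → κ → Bool) (w : κ → Bool)
    (v : ι → Bool) (hC : ¬ (agr w (r v) s).card ≤ q) :
    KO1 q s r w v = KO0 r w v ∧
    obs (KO1 q s r) (CV1 q s r) w v (ob A v) = obs (KO0 r) (CV0 r) w v (ob A v) := by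
  have h1 : KO1 q s r w v = KO0 r w v := by
    unfold KO1 KO0 KB; rw [if_neg hC]
  refine ⟨h1, ?_⟩
  unfold obs
  rw [h1]
  unfold CV1 CV0 gB
  rw [if_neg hC]

theorem prem_le (A : Str ι q) (s : κ → Bool) (r : (ι → Bool) → κ → Bool)
    {m : Hist (κ ⊕ ι) → ℝ} (hm : IsFlow c q θ m) (T N : ℕ) (w : κ → Bool) (v : ι → Bool)
    (h : Hist (κ ⊕ ι)) :
    prem A s r m T N w v h ≤ t1 A s r m T w v h + t2 A r m T N w v h := by
  induction T generalizing N w v h with
  | zero =>
    have n1 := t1_nonneg A s r hm 0 w v h
    have n2 := t2_nonneg A r hm 0 N w v h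
    have n3 := prem_le_self A s r hm 0 N w v h
    by_cases hN : N = 0
    · rw [prem, if_pos hN]; linarith
    · by_cases hC : (agr w (r v) s).card ≤ q
      · by_cases hn : (diff w (r v)).card < 8 * q
        · have : t2 A r m 0 N w v h = m h := by rw [t2, if_neg hN, if_pos hn]
          linarith
        · have : t1 A s r m 0 w v h = m h := by rw [t1, if_neg hn, if_pos hC]
          linarith
      · have hZ : ¬ (diff w s).card ≤ q := fun hZ =>
          hC ((Finset.card_le_card (agr_le_diff w (r v) s)).trans hZ)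
        rw [prem, if_neg hN, if_neg hZ]; linarith
  | succ T ih =>
    have n1 := t1_nonneg A s r hm (T + 1) w v h
    have n2 := t2_nonneg A r hm (T + 1) N w v h
    have n3 := prem_le_self A s r hm (T + 1) N w v h
    by_cases hN : N = 0
    · rw [prem, if_pos hN]; linarith
    · by_cases hn : (diff w (r v)).card < 8 * q
      · have : t2 A r m (T + 1) N w v h = m h := by rw [t2, if_neg hN, if_pos hn]
        linarith
      · by_cases hC : (agr w (r v) s).card ≤ q
        · have : m h ≤ t1 A s r m (T + 1) w v h := by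
            rw [t1, if_neg hn, if_pos hC]
            have : 0 ≤ ∑ a ∈ KO0 r w v, t1 A s r m T (flip w a) v
                ((obs (KO0 r) (CV0 r) w v (ob A v), inl a) :: h) +
              ∑ i ∈ improving A.f v, t1 A s r m T w (flip v i)
                ((obs (KO0 r) (CV0 r) w v (ob A v), inr i) :: h) :=
              add_nonneg (Finset.sum_nonneg fun a _ => t1_nonneg A s r hm _ _ _ _)
                (Finset.sum_nonneg fun a _ => t1_nonneg A s r hm _ _ _ _)
            linarith
          linarith
        · have hZ : ¬ (diff w s).card ≤ q := fun hZ =>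
            hC ((Finset.card_le_card (agr_le_diff w (r v) s)).trans hZ)
          by_cases hU : A.U v
          · obtain ⟨e1, e2⟩ := obs_eq A s r w v hC
            rw [prem, if_neg hN, if_neg hZ, if_pos hU, t1, if_neg hn, if_neg hC, t2, if_neg hN,
              if_neg hn, if_pos hU, e1, e2, zero_add]
            have i1 : ∑ a ∈ KO0 r w v, prem A s r m T N (flip w a) v
                ((obs (KO0 r) (CV0 r) w v (ob A v), inl a) :: h) ≤
                ∑ a ∈ KO0 r w v, (t1 A s r m T (flip w a) v
                ((obs (KO0 r) (CV0 r) w v (ob A v), inl a) :: h) +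
                t2 A r m T N (flip w a) v
                ((obs (KO0 r) (CV0 r) w v (ob A v), inl a) :: h)) :=
              Finset.sum_le_sum fun a _ => ih _ _ _ _
            have i2 : ∑ i ∈ improving A.f v, prem A s r m T (N - 1) w (flip v i)
                ((obs (KO0 r) (CV0 r) w v (ob A v), inr i) :: h) ≤
                ∑ i ∈ improving A.f v, (t1 A s r m T w (flip v i)
                ((obs (KO0 r) (CV0 r) w v (ob A v), inr i) :: h) +
                t2 A r m T (N - 1) w (flip v i)
                ((obs (KO0 r) (CV0 r) w v (ob A v), inr i) :: h)) :=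
              Finset.sum_le_sum fun a _ => ih _ _ _ _
            rw [Finset.sum_add_distrib] at i1 i2
            linarith
          · rw [prem, if_neg hN, if_neg hZ, if_neg hU]; linarith

/-- the average over `s` -/
theorem sum_t1 (A : Str ι q) (r : (ι → Bool) → κ → Bool)
    {m : Hist (κ ⊕ ι) → ℝ} (hm : IsFlow c q θ m) (T : ℕ) (w : κ → Bool) (v : ι → Bool)
    (h : Hist (κ ⊕ ι)) :
    ∑ s : κ → Bool, t1 A s r m T w v h ≤
      ((1 / 4) ^ q * 2 ^ Fintype.card κ) * ((T + 1 : ℕ) * m h) := by
  set P : ℝ := (1 / 4) ^ q * 2 ^ Fintype.card κ with hP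
  have hP0 : 0 ≤ P := by positivity
  have key : ∀ (w : κ → Bool) (v : ι → Bool) (h : Hist (κ ⊕ ι)),
      ¬ (diff w (r v)).card < 8 * q →
      ∑ s : κ → Bool, (if (agr w (r v) s).card ≤ q then m h else 0) ≤ P * m h := by
    intro w v h hn
    have h1 := card_agr_le q w (r v) (not_lt.1 hn)
    have h2 : ∑ s : κ → Bool, (if (agr w (r v) s).card ≤ q then m h else 0) =
        (∑ s : κ → Bool, (if (agr w (r v) s).card ≤ q then (1 : ℝ) else 0)) * m h := by
      rw [Finset.sum_mul]
      refine Finset.sum_congr rfl fun s _ => ?_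
      split_ifs <;> simp
    rw [h2]
    exact mul_le_mul_of_nonneg_right h1 (hm.nonneg _)
  induction T generalizing w v h with
  | zero =>
    by_cases hn : (diff w (r v)).card < 8 * q
    · have : ∀ s : κ → Bool, t1 A s r m 0 w v h = 0 := by
        intro s; rw [t1, if_pos hn]
      simp only [this, Finset.sum_const_zero]
      have := hm.nonneg h
      positivity
    · have : ∀ s : κ → Bool, t1 A s r m 0 w v h =
          if (agr w (r v) s).card ≤ q then m h else 0 := by
        intro s; rw [t1, if_neg hn]
      simp only [this]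
      simpa using key w v h hn
  | succ T ih =>
    have hm0 := hm.nonneg h
    by_cases hn : (diff w (r v)).card < 8 * q
    · have : ∀ s : κ → Bool, t1 A s r m (T + 1) w v h = 0 := by
        intro s; rw [t1, if_pos hn]
      simp only [this, Finset.sum_const_zero]
      positivity
    · have : ∀ s : κ → Bool, t1 A s r m (T + 1) w v h =
          (if (agr w (r v) s).card ≤ q then m h else 0) +
      (∑ a ∈ KO0 r w v, t1 A s r m T (flip w a) v
        ((obs (KO0 r) (CV0 r) w v (ob A v), inl a) :: h) +
      ∑ i ∈ improving A.f v, t1 A s r m T w (flip v i)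
        ((obs (KO0 r) (CV0 r) w v (ob A v), inr i) :: h)) := by
        intro s; rw [t1, if_neg hn]
      simp only [this]
      rw [Finset.sum_add_distrib, Finset.sum_add_distrib, Finset.sum_comm,
        Finset.sum_comm (s := univ) (t := improving A.f v)]
      have i1 : ∑ a ∈ KO0 r w v, ∑ s : κ → Bool, t1 A s r m T (flip w a) v
        ((obs (KO0 r) (CV0 r) w v (ob A v), inl a) :: h) ≤
          ∑ a ∈ KO0 r w v, P * ((T + 1 : ℕ) *
            m ((obs (KO0 r) (CV0 r) w v (ob A v), inl a) :: h)) :=
        Finset.sum_le_sum fun a _ => ih _ _ _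
      have i2 : ∑ i ∈ improving A.f v, ∑ s : κ → Bool, t1 A s r m T w (flip v i)
        ((obs (KO0 r) (CV0 r) w v (ob A v), inr i) :: h) ≤
          ∑ i ∈ improving A.f v, P * ((T + 1 : ℕ) *
            m ((obs (KO0 r) (CV0 r) w v (ob A v), inr i) :: h)) :=
        Finset.sum_le_sum fun a _ => ih _ _ _
      have i3 := key w v h hn
      have i4 := sub_obs hm (KO0 r) (CV0 r) w v (ob A v) h
      rw [← Finset.mul_sum, ← Finset.mul_sum] at i1 i2
      have i5 : P * ((T + 1 : ℕ) * (∑ a ∈ KO0 r w v,
            m ((obs (KO0 r) (CV0 r) w v (ob A v), inl a) :: h))) +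
          P * ((T + 1 : ℕ) * (∑ i ∈ improving A.f v,
            m ((obs (KO0 r) (CV0 r) w v (ob A v), inr i) :: h))) ≤
          P * ((T + 1 : ℕ) * m h) := by
        rw [← mul_add, ← mul_add]
        gcongr
        exact i4
      have i6 : P * (((T + 1 + 1 : ℕ) : ℝ) * m h) = P * m h + P * ((T + 1 : ℕ) * m h) := by
        push_cast; ring
      rw [i6]
      linarith

theorem t2_update (A : Str ι q) (r : (ι → Bool) → κ → Bool) (m : Hist (κ ⊕ ι) → ℝ)
    (u : ι → Bool) (x : κ → Bool) (T N : ℕ) (w : κ → Bool) (v : ι → Bool)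
    (h : Hist (κ ⊕ ι)) (huv : A.f u < A.f v) :
    t2 A (Function.update r u x) m T N w v h = t2 A r m T N w v h := by
  have hne : ∀ v : ι → Bool, A.f u < A.f v → Function.update r u x v = r v := by
    intro v hv
    rw [Function.update_of_ne]
    rintro rfl
    exact lt_irrefl _ hv
  induction T generalizing N w v h with
  | zero => rw [t2, t2, hne v huv]
  | succ T ih =>
    have e := hne v huv
    have e1 : KO0 (Function.update r u x) w v = KO0 r w v := by unfold KO0; rw [e]
    have e2 : obs (KO0 (Function.update r u x)) (CV0 (Function.update r u x)) w v (ob A v) =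
        obs (KO0 r) (CV0 r) w v (ob A v) := by
      unfold obs; rw [e1]; unfold CV0; rw [e]
    rw [t2, t2, e, e1, e2]
    have s1 : ∀ a, t2 A (Function.update r u x) m T N (flip w a) v
        ((obs (KO0 r) (CV0 r) w v (ob A v), inl a) :: h) =
        t2 A r m T N (flip w a) v ((obs (KO0 r) (CV0 r) w v (ob A v), inl a) :: h) :=
      fun a => ih _ _ _ _ huv
    have s2 : ∀ i ∈ improving A.f v, t2 A (Function.update r u x) m T (N - 1) w (flip v i)
        ((obs (KO0 r) (CV0 r) w v (ob A v), inr i) :: h) =
        t2 A r m T (N - 1) w (flip v i)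
        ((obs (KO0 r) (CV0 r) w v (ob A v), inr i) :: h) := by
      intro i hi
      apply ih
      have : A.f v < A.f (flip v i) := by simpa [improving] using hi
      omega
    simp only [s1]
    rw [Finset.sum_congr rfl s2]

/-- one external step of the ideal process loses a factor -/
theorem ext_step {m : Hist (κ ⊕ ι) → ℝ} (hm : IsFlow (Fintype.card κ) q θ m) {lam : ℝ}
    (hlam : lam * (1 + θ) = θ) (A : Str ι q) (r : (ι → Bool) → κ → Bool) (w : κ → Bool)
    (v : ι → Bool) (h : Hist (κ ⊕ ι)) (hU : A.U v) :
    ∑ a ∈ KO0 r w v, m ((obs (KO0 r) (CV0 r) w v (ob A v), inl a) :: h) ≤ lam * m h := by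
  have h1 := sub_obs hm (KO0 r) (CV0 r) w v (ob A v) h
  have h2 := hm.ratio h ((KO0 r w v).disjSum (improving A.f v)) (CV0 r w v (A.f v))
      ((KO0 r w v).map ⟨inl, Sum.inl_injective⟩) ((improving A.f v).map ⟨inr, Sum.inr_injective⟩)
      ?_ ?_ ?_ ?_
  · simp only [Finset.sum_map, Function.Embedding.coeFn_mk] at h2
    have h3 : ∑ a ∈ KO0 r w v, m ((obs (KO0 r) (CV0 r) w v (ob A v), inl a) :: h) ≤
        θ * ∑ i ∈ improving A.f v, m ((obs (KO0 r) (CV0 r) w v (ob A v), inr i) :: h) := h2
    have h4 : (ob A v).1 = improving A.f v := rfl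
    rw [h4] at h1
    set Q := ∑ a ∈ KO0 r w v, m ((obs (KO0 r) (CV0 r) w v (ob A v), inl a) :: h)
    set I := ∑ i ∈ improving A.f v, m ((obs (KO0 r) (CV0 r) w v (ob A v), inr i) :: h)
    have hθ : (0 : ℝ) < 1 + θ := by positivity
    have h5 : Q * (1 + θ) ≤ θ * m h := by
      have h7 : (θ : ℝ) * (Q + I) ≤ θ * m h := mul_le_mul_of_nonneg_left h1 (Nat.cast_nonneg θ)
      linarith
    have h6 : Q * (1 + θ) ≤ lam * m h * (1 + θ) := by
      calc Q * (1 + θ) ≤ θ * m h := h5
        _ = lam * (1 + θ) * m h := by rw [hlam]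
        _ = lam * m h * (1 + θ) := by ring
    exact le_of_mul_le_mul_right h6 hθ
  · intro z hz
    rw [Finset.mem_map] at hz
    obtain ⟨i, hi, rfl⟩ := hz
    exact Finset.inl_mem_disjSum.2 hi
  · intro z hz
    rw [Finset.mem_map] at hz
    obtain ⟨i, hi, rfl⟩ := hz
    exact Finset.inr_mem_disjSum.2 hi
  · rw [Finset.card_map]; exact card_le _
  · rw [Finset.card_map]; exact A.big v hU

/-- the average over `r` -/
theorem sum_t2 (A : Str ι q) {m : Hist (κ ⊕ ι) → ℝ} (hm : IsFlow (Fintype.card κ) q θ m)
    {lam δ : ℝ} (hlam : lam * (1 + θ) = θ) (hδ : ∀ w : κ → Bool,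
      ∑ x : κ → Bool, lam ^ ((diff w x).card - 8 * q) ≤ δ * Fintype.card (κ → Bool))
    (N T : ℕ) (w : κ → Bool) (v : ι → Bool) (h : Hist (κ ⊕ ι)) :
    ∑ r : (ι → Bool) → κ → Bool, t2 A r m T N w v h ≤
      Fintype.card ((ι → Bool) → κ → Bool) * (N * δ * m h) := by
  have hθ : (0 : ℝ) < 1 + θ := by positivity
  have hlam0 : 0 ≤ lam := by
    have : 0 ≤ lam * (1 + θ) := by rw [hlam]; positivity
    exact nonneg_of_mul_nonneg_left this hθ
  have hlam1 : lam ≤ 1 := by
    by_contra hc
    push Not at hc
    nlinarith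
  have hδ0 : 0 ≤ δ := by
    have h1 := hδ (fun _ => true)
    have h2 : (0 : ℝ) ≤ ∑ x : κ → Bool, lam ^ ((diff (fun _ => true) x).card - 8 * q) :=
      Finset.sum_nonneg fun _ _ => pow_nonneg hlam0 _
    have h3 : (0 : ℝ) < Fintype.card (κ → Bool) := by exact_mod_cast Fintype.card_pos
    exact nonneg_of_mul_nonneg_left (h2.trans h1) h3
  set R : ℝ := ((Fintype.card ((ι → Bool) → κ → Bool) : ℕ) : ℝ) with hR
  have hR0 : 0 ≤ R := by positivity
  induction N generalizing T w v h with
  | zero =>
    have : ∀ r : (ι → Bool) → κ → Bool, t2 A r m T 0 w v h = 0 := by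
      intro r; cases T <;> rw [t2, if_pos rfl]
    simp [this]
  | succ N ihN =>
    -- the epoch at `v` with `r v = x`
    have E : ∀ (x : κ → Bool) (T : ℕ) (w : κ → Bool) (h : Hist (κ ⊕ ι)),
        ∑ r : (ι → Bool) → κ → Bool, t2 A (Function.update r v x) m T (N + 1) w v h ≤
          R * ((lam ^ ((diff w x).card - 8 * q) + N * δ) * m h) := by
      intro x T
      induction T with
      | zero =>
        intro w h
        have hm0 := hm.nonneg h
        by_cases hn : (diff w x).card < 8 * q
        · have e : ∀ r : (ι → Bool) → κ → Bool,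
              t2 A (Function.update r v x) m 0 (N + 1) w v h = m h := by
            intro r; rw [t2, if_neg (by omega), Function.update_self, if_pos hn]
          simp only [e, Finset.sum_const, Finset.card_univ, nsmul_eq_mul]
          rw [← hR]
          have : (diff w x).card - 8 * q = 0 := by omega
          rw [this, pow_zero]
          gcongr
          nlinarith [mul_nonneg (mul_nonneg (Nat.cast_nonneg (α := ℝ) N) hδ0) hm0]
        · have e : ∀ r : (ι → Bool) → κ → Bool,
              t2 A (Function.update r v x) m 0 (N + 1) w v h = 0 := by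
            intro r; rw [t2, if_neg (by omega), Function.update_self, if_neg hn]
          simp only [e, Finset.sum_const_zero]
          positivity
      | succ T ihT =>
        intro w h
        have hm0 := hm.nonneg h
        by_cases hn : (diff w x).card < 8 * q
        · have e : ∀ r : (ι → Bool) → κ → Bool,
              t2 A (Function.update r v x) m (T + 1) (N + 1) w v h = m h := by
            intro r; rw [t2, if_neg (by omega), Function.update_self, if_pos hn]
          simp only [e, Finset.sum_const, Finset.card_univ, nsmul_eq_mul]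
          rw [← hR]
          have : (diff w x).card - 8 * q = 0 := by omega
          rw [this, pow_zero]
          gcongr
          nlinarith [mul_nonneg (mul_nonneg (Nat.cast_nonneg (α := ℝ) N) hδ0) hm0]
        · by_cases hU : A.U v
          · -- the observation does not depend on `r`
            set r₁ : (ι → Bool) → κ → Bool := fun _ => x with hr₁
            have eK : ∀ r : (ι → Bool) → κ → Bool, KO0 (Function.update r v x) w v =
                KO0 r₁ w v := by
              intro r; unfold KO0; rw [Function.update_self]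
            have eO : ∀ r : (ι → Bool) → κ → Bool,
                obs (KO0 (Function.update r v x)) (CV0 (Function.update r v x)) w v (ob A v) =
                obs (KO0 r₁) (CV0 r₁) w v (ob A v) := by
              intro r; unfold obs; rw [eK]; unfold CV0; rw [Function.update_self]
            set o := obs (KO0 r₁) (CV0 r₁) w v (ob A v) with ho
            have e : ∀ r : (ι → Bool) → κ → Bool,
                t2 A (Function.update r v x) m (T + 1) (N + 1) w v h =
                ∑ a ∈ KO0 r₁ w v, t2 A (Function.update r v x) m T (N + 1) (flip w a) v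
                  ((o, inl a) :: h) +
                ∑ i ∈ improving A.f v, t2 A r m T N w (flip v i) ((o, inr i) :: h) := by
              intro r
              rw [t2, if_neg (by omega), Function.update_self, if_neg hn, if_pos hU, eK, eO]
              congr 1
              refine Finset.sum_congr rfl fun i hi => ?_
              rw [Nat.add_sub_cancel]
              apply t2_update
              simpa [improving] using hi
            simp only [e]
            rw [Finset.sum_add_distrib, Finset.sum_comm,
              Finset.sum_comm (s := univ) (t := improving A.f v)]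
            have i1 : ∑ a ∈ KO0 r₁ w v, ∑ r : (ι → Bool) → κ → Bool,
                t2 A (Function.update r v x) m T (N + 1) (flip w a) v ((o, inl a) :: h) ≤
                ∑ a ∈ KO0 r₁ w v, R * ((lam ^ ((diff w x).card - 1 - 8 * q) + N * δ) *
                  m ((o, inl a) :: h)) := by
              refine Finset.sum_le_sum fun a ha => ?_
              have h1 := ihT (flip w a) ((o, inl a) :: h)
              have h2 : (diff (flip w a) x).card = (diff w x).card - 1 := by
                have ha' : w a ≠ x a := mem_diff.1 ha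
                have := diff_flip_of_mem ha'
                omega
              rwa [h2] at h1
            have i2 : ∑ i ∈ improving A.f v, ∑ r : (ι → Bool) → κ → Bool,
                t2 A r m T N w (flip v i) ((o, inr i) :: h) ≤
                ∑ i ∈ improving A.f v, R * (N * δ * m ((o, inr i) :: h)) :=
              Finset.sum_le_sum fun i _ => ihN _ _ _ _
            rw [← Finset.mul_sum, ← Finset.mul_sum] at i1 i2
            have i3 := sub_obs hm (KO0 r₁) (CV0 r₁) w v (ob A v) h
            rw [← ho] at i3
            have i4 := ext_step hm hlam A r₁ w v h hU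
            rw [← ho] at i4
            have i5 : (ob A v).1 = improving A.f v := rfl
            rw [i5] at i3
            set Q := ∑ a ∈ KO0 r₁ w v, m ((o, inl a) :: h) with hQ
            set I := ∑ i ∈ improving A.f v, m ((o, inr i) :: h) with hI
            have hQ0 : 0 ≤ Q := Finset.sum_nonneg fun _ _ => hm.nonneg _
            have i6 : lam ^ ((diff w x).card - 1 - 8 * q) * Q ≤
                lam ^ ((diff w x).card - 8 * q) * m h := by
              have hp0 : 0 ≤ lam ^ ((diff w x).card - 1 - 8 * q) := pow_nonneg hlam0 _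
              calc lam ^ ((diff w x).card - 1 - 8 * q) * Q
                  ≤ lam ^ ((diff w x).card - 1 - 8 * q) * (lam * m h) :=
                    mul_le_mul_of_nonneg_left i4 hp0
                _ = lam ^ ((diff w x).card - 1 - 8 * q + 1) * m h := by ring
                _ ≤ lam ^ ((diff w x).card - 8 * q) * m h := by
                    refine mul_le_mul_of_nonneg_right ?_ hm0
                    exact pow_le_pow_of_le_one hlam0 hlam1 (by omega)
            have hN0 : (0 : ℝ) ≤ N * δ := by positivity
            have i7 : (lam ^ ((diff w x).card - 1 - 8 * q) + N * δ) * Q + N * δ * I ≤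
                (lam ^ ((diff w x).card - 8 * q) + N * δ) * m h := by
              have := mul_le_mul_of_nonneg_left i3 hN0
              nlinarith
            calc _ ≤ R * ((lam ^ ((diff w x).card - 1 - 8 * q) + N * δ) * Q) +
                  R * (N * δ * I) := by
                  exact add_le_add i1 i2
              _ = R * ((lam ^ ((diff w x).card - 1 - 8 * q) + N * δ) * Q + N * δ * I) := by
                  ring
              _ ≤ _ := mul_le_mul_of_nonneg_left i7 hR0
          · have e : ∀ r : (ι → Bool) → κ → Bool,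
                t2 A (Function.update r v x) m (T + 1) (N + 1) w v h = 0 := by
              intro r; rw [t2, if_neg (by omega), Function.update_self, if_neg hn, if_neg hU]
            simp only [e, Finset.sum_const_zero]
            positivity
    have hW : (0 : ℝ) < Fintype.card (κ → Bool) := by exact_mod_cast Fintype.card_pos
    have h1 := sum_update (fun r : (ι → Bool) → κ → Bool => t2 A r m T (N + 1) w v h) v
    have h2 : ∑ x : κ → Bool, ∑ r : (ι → Bool) → κ → Bool,
        t2 A (Function.update r v x) m T (N + 1) w v h ≤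
        ∑ x : κ → Bool, R * ((lam ^ ((diff w x).card - 8 * q) + N * δ) * m h) :=
      Finset.sum_le_sum fun x _ => E x T w h
    have h3 : ∑ x : κ → Bool, R * ((lam ^ ((diff w x).card - 8 * q) + N * δ) * m h) =
        R * ((∑ x : κ → Bool, lam ^ ((diff w x).card - 8 * q) +
          Fintype.card (κ → Bool) * (N * δ)) * m h) := by
      rw [← Finset.mul_sum, ← Finset.sum_mul, Finset.sum_add_distrib, Finset.sum_const,
        Finset.card_univ, nsmul_eq_mul]
    have h4 : (∑ x : κ → Bool, lam ^ ((diff w x).card - 8 * q) +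
          Fintype.card (κ → Bool) * (N * δ)) * m h ≤
        Fintype.card (κ → Bool) * (((N + 1 : ℕ) : ℝ) * δ * m h) := by
      have := hδ w
      have hm0 := hm.nonneg h
      calc _ ≤ (δ * Fintype.card (κ → Bool) + Fintype.card (κ → Bool) * (N * δ)) * m h := by
            gcongr
        _ = _ := by push_cast; ring
    have h5 : (Fintype.card (κ → Bool) : ℝ) *
        ∑ r : (ι → Bool) → κ → Bool, t2 A r m T (N + 1) w v h ≤
        Fintype.card (κ → Bool) * (R * (((N + 1 : ℕ) : ℝ) * δ * m h)) := by
      rw [← h1]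
      refine h2.trans ?_
      rw [h3]
      calc _ ≤ R * (Fintype.card (κ → Bool) * (((N + 1 : ℕ) : ℝ) * δ * m h)) :=
            mul_le_mul_of_nonneg_left h4 hR0
        _ = _ := by ring
    exact le_of_mul_le_mul_left h5 hW

/-- **The ball is not entered too early.** -/
theorem sum_prem (A : Str ι q) {m : Hist (κ ⊕ ι) → ℝ} (hm : IsFlow (Fintype.card κ) q θ m)
    {lam δ : ℝ} (hlam : lam * (1 + θ) = θ) (hδ : ∀ w : κ → Bool,
      ∑ x : κ → Bool, lam ^ ((diff w x).card - 8 * q) ≤ δ * Fintype.card (κ → Bool))
    (N T : ℕ) (w : κ → Bool) (v : ι → Bool) (h : Hist (κ ⊕ ι)) :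
    ∑ s : κ → Bool, ∑ r : (ι → Bool) → κ → Bool, prem A s r m T N w v h ≤
      Fintype.card (κ → Bool) * Fintype.card ((ι → Bool) → κ → Bool) *
        (((1 / 4) ^ q * (T + 1 : ℕ) + N * δ) * m h) := by
  have hW : (Fintype.card (κ → Bool) : ℝ) = 2 ^ Fintype.card κ := by
    rw [Fintype.card_fun, Fintype.card_bool]; push_cast; rfl
  calc ∑ s : κ → Bool, ∑ r : (ι → Bool) → κ → Bool, prem A s r m T N w v h
      ≤ ∑ s : κ → Bool, ∑ r : (ι → Bool) → κ → Bool,
          (t1 A s r m T w v h + t2 A r m T N w v h) :=
        Finset.sum_le_sum fun s _ => Finset.sum_le_sum fun r _ => prem_le A s r hm T N w v h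
    _ = ∑ r : (ι → Bool) → κ → Bool, ∑ s : κ → Bool, t1 A s r m T w v h +
          Fintype.card (κ → Bool) * ∑ r : (ι → Bool) → κ → Bool, t2 A r m T N w v h := by
        simp only [Finset.sum_add_distrib]
        rw [Finset.sum_comm, Finset.sum_const, Finset.card_univ, nsmul_eq_mul]
    _ ≤ ∑ r : (ι → Bool) → κ → Bool,
          ((1 / 4) ^ q * 2 ^ Fintype.card κ) * ((T + 1 : ℕ) * m h) +
          Fintype.card (κ → Bool) *
            (Fintype.card ((ι → Bool) → κ → Bool) * (N * δ * m h)) := by
        refine add_le_add (Finset.sum_le_sum fun r _ => sum_t1 A r hm T w v h) ?_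
        exact mul_le_mul_of_nonneg_left (sum_t2 A hm hlam hδ N T w v h) (by positivity)
    _ = _ := by
        rw [Finset.sum_const, Finset.card_univ, nsmul_eq_mul, ← hW]
        ring

end prem

end Pool.Agent.K4H94.SX
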