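import Pool.Agent.K4H94.SX.Prem
set_option autoImplicit false
set_option linter.unusedSectionVars false

/-!
One step of the construction doubles the number of steps.
-/

namespace Pool.Agent.K4H94.SX

open Finset Sum

variable {ι κ : Type} [DecidableEq ι] [Fintype ι] [DecidableEq κ] [Fintype κ] {q : ℕ}

/-- second phase -/
def KO2 (s : κ → Bool) (w : κ → Bool) (_ : ι → Bool) : Finset κ := diff w s

def CV2 (A : Str ι q) (s : κ → Bool) (w : κ → Bool) (_ : ι → Bool) (y : ℕ) : ℕ :=
  MM κ * (∑ v, A.f v + 1) + MM κ * y + (Fintype.card κ - (diff w s).card)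

variable {c θ : ℕ}

theorem obs_in (s : κ → Bool) (r : (ι → Bool) → κ → Bool) (A A' : Str ι q)
    (x : κ ⊕ ι → Bool) (hZ : (diff (x ∘ inl) s).card ≤ q) :
    (improving (comb s r A A').f x, (comb s r A A').f x) =
      obs (KO2 s) (CV2 A s) (x ∘ inl) (x ∘ inr) (ob A' (x ∘ inr)) := by
  rw [comb_f, cf_improving, if_pos hZ]
  unfold cf
  rw [if_pos hZ]
  rfl

theorem obs_out (s : κ → Bool) (r : (ι → Bool) → κ → Bool) (A A' : Str ι q)
    (x : κ ⊕ ι → Bool) (hZ : ¬ (diff (x ∘ inl) s).card ≤ q) :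
    (improving (comb s r A A').f x, (comb s r A A').f x) =
      obs (KO1 q s r) (CV1 q s r) (x ∘ inl) (x ∘ inr) (ob A (x ∘ inr)) := by
  rw [comb_f, cf_improving, if_neg hZ]
  unfold cf
  rw [if_neg hZ]
  rfl

theorem loss_in (s : κ → Bool) (r : (ι → Bool) → κ → Bool) (A A' : Str ι q)
    {m : Hist (κ ⊕ ι) → ℝ} (hm : IsFlow c q θ m) (T N : ℕ) (hT : T ≤ N) (x : κ ⊕ ι → Bool)
    (h : Hist (κ ⊕ ι)) (hZ : (diff (x ∘ inl) s).card ≤ q) :
    loss (comb s r A A') m T x h ≤
      ext A' (KO2 s) (CV2 A s) (fun _ => False) m T N (x ∘ inl) (x ∘ inr) h := by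
  induction T generalizing N x h with
  | zero => rw [loss]; exact ext_nonneg _ _ _ A' hm _ _ _ _ _
  | succ T ih =>
    rw [loss, ext.eq_2, if_neg (show ¬ N = 0 by omega), comb_U]
    by_cases hU : A'.U (x ∘ inr)
    · rw [if_pos (Or.inr hU), if_pos hU, if_neg not_false]
      have hO := obs_in s r A A' x hZ
      rw [hO]
      have hI : improving (comb s r A A').f x =
          (KO2 s (x ∘ inl) (x ∘ inr)).disjSum (improving A'.f (x ∘ inr)) := congrArg Prod.fst hO
      rw [hI, Finset.sum_disjSum]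
      refine add_le_add (Finset.sum_le_sum fun a ha => ?_) (Finset.sum_le_sum fun i hi => ?_)
      · have h1 := ih N (by omega) (flip x (inl a))
          ((obs (KO2 s) (CV2 A s) (x ∘ inl) (x ∘ inr) (ob A' (x ∘ inr)), inl a) :: h) ?_
        · rw [flip_inl_inl, flip_inl_inr] at h1
          exact h1
        · rw [flip_inl_inl]
          have := diff_flip_of_mem (mem_diff.1 (show a ∈ diff (x ∘ inl) s from ha))
          omega
      · have h1 := ih (N - 1) (by omega) (flip x (inr i))
          ((obs (KO2 s) (CV2 A s) (x ∘ inl) (x ∘ inr) (ob A' (x ∘ inr)), inr i) :: h) ?_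
        · rw [flip_inr_inl, flip_inr_inr] at h1
          exact h1
        · rw [flip_inr_inl]; exact hZ
    · rw [if_neg (by rintro (h1 | h1); exacts [absurd hZ (not_le.2 h1), hU h1]), if_neg hU]

theorem prem_nonneg (A : Str ι q) (s : κ → Bool) (r : (ι → Bool) → κ → Bool)
    {m : Hist (κ ⊕ ι) → ℝ} (hm : IsFlow c q θ m) (T N : ℕ) (w : κ → Bool) (v : ι → Bool)
    (h : Hist (κ ⊕ ι)) : 0 ≤ prem A s r m T N w v h := by
  induction T generalizing N w v h with
  | zero =>
    rw [prem]
    split_ifs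
    exacts [le_rfl, hm.nonneg _, le_rfl]
  | succ T ih =>
    rw [prem]
    split_ifs
    · exact le_rfl
    · exact hm.nonneg _
    · exact add_nonneg (Finset.sum_nonneg fun a _ => ih _ _ _ _)
        (Finset.sum_nonneg fun a _ => ih _ _ _ _)
    · exact le_rfl

theorem prem_Z (A : Str ι q) (s : κ → Bool) (r : (ι → Bool) → κ → Bool)
    (m : Hist (κ ⊕ ι) → ℝ) (T N : ℕ) (hN : N ≠ 0) (w : κ → Bool) (v : ι → Bool)
    (h : Hist (κ ⊕ ι)) (hZ : (diff w s).card ≤ q) : prem A s r m T N w v h = m h := by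
  cases T <;> rw [prem, if_neg hN, if_pos hZ]

theorem loss_out (s : κ → Bool) (r : (ι → Bool) → κ → Bool) (A : Str ι q)
    {N : ℕ} {ε : ℝ} (hε : 0 ≤ ε) {Ω : Type} [Fintype Ω] {B : Ω → Str ι q}
    (hB : HardFor ι c q θ N ε Ω B)
    {m : Hist (κ ⊕ ι) → ℝ} (hm : IsFlow c q θ m) (T N' : ℕ) (hT : T ≤ N + N' + 1)
    (x : κ ⊕ ι → Bool) (h : Hist (κ ⊕ ι)) (hZ : ¬ (diff (x ∘ inl) s).card ≤ q) :
    ∑ b, loss (comb s r A (B b)) m T x h ≤
      Fintype.card Ω * (ext A (KO1 q s r) (CV1 q s r) (fun w => (diff w s).card ≤ q) m T N'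
        (x ∘ inl) (x ∘ inr) h + prem A s r m T N' (x ∘ inl) (x ∘ inr) h) +
      ε * Fintype.card Ω * m h := by
  have hε' : ∀ h : Hist (κ ⊕ ι), 0 ≤ ε * Fintype.card Ω * m h := fun h =>
    mul_nonneg (mul_nonneg hε (Nat.cast_nonneg _)) (hm.nonneg h)
  have hΩ0 : (0 : ℝ) ≤ Fintype.card Ω := Nat.cast_nonneg _
  induction T generalizing N' x h with
  | zero =>
    have h1 := ext_nonneg (KO1 q s r) (CV1 q s r) (fun w => (diff w s).card ≤ q) A hm 0 N'
      (x ∘ inl) (x ∘ inr) h
    have h2 := prem_nonneg A s r hm 0 N' (x ∘ inl) (x ∘ inr) h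
    simp only [loss, Finset.sum_const_zero]
    have := hε' h
    positivity
  | succ T ih =>
    set w := x ∘ inl with hw
    set v := x ∘ inr with hv
    set o := obs (KO1 q s r) (CV1 q s r) w v (ob A v) with ho
    -- the loss as a sum over the steps
    have e : ∀ b, loss (comb s r A (B b)) m (T + 1) x h =
        ∑ a ∈ KO1 q s r w v, loss (comb s r A (B b)) m T (flip x (inl a)) ((o, inl a) :: h) +
        ∑ i ∈ improving A.f v, loss (comb s r A (B b)) m T (flip x (inr i))
          ((o, inr i) :: h) := by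
      intro b
      rw [loss, comb_U, if_pos (Or.inl (not_le.1 hZ))]
      have hO := obs_out s r A (B b) x hZ
      rw [hO]
      have hI : improving (comb s r A (B b)).f x =
          (KO1 q s r w v).disjSum (improving A.f v) := congrArg Prod.fst hO
      rw [hI, Finset.sum_disjSum]
    have hsum : ∑ b, loss (comb s r A (B b)) m (T + 1) x h =
        ∑ a ∈ KO1 q s r w v, ∑ b, loss (comb s r A (B b)) m T (flip x (inl a))
          ((o, inl a) :: h) +
        ∑ i ∈ improving A.f v, ∑ b, loss (comb s r A (B b)) m T (flip x (inr i))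
          ((o, inr i) :: h) := by
      simp only [e]
      rw [Finset.sum_add_distrib, Finset.sum_comm,
        Finset.sum_comm (s := univ) (t := improving A.f v)]
    have hflow := sub_obs hm (KO1 q s r) (CV1 q s r) w v (ob A v) h
    rw [← ho] at hflow
    have hob : (ob A v).1 = improving A.f v := rfl
    rw [hob] at hflow
    -- the total
    have hle : ∀ b, loss (comb s r A (B b)) m (T + 1) x h ≤ m h := fun b => loss_le _ hm _ _ _
    by_cases hU : N' ≠ 0 ∧ ¬ A.U v
    · have h1 : ext A (KO1 q s r) (CV1 q s r) (fun w => (diff w s).card ≤ q) m (T + 1) N'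
          w v h = m h := by
        rw [ext.eq_2, if_neg hU.1, if_neg hU.2]
      rw [h1]
      have h2 := prem_nonneg A s r hm (T + 1) N' w v h
      have h3 : ∑ b, loss (comb s r A (B b)) m (T + 1) x h ≤ Fintype.card Ω * m h := by
        calc _ ≤ ∑ _b : Ω, m h := Finset.sum_le_sum fun b _ => hle b
          _ = _ := by rw [Finset.sum_const, Finset.card_univ, nsmul_eq_mul]
      have h4 := hε' h
      have h5 : Fintype.card Ω * m h ≤ Fintype.card Ω * (m h + prem A s r m (T + 1) N' w v h) :=
        mul_le_mul_of_nonneg_left (by linarith) hΩ0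
      linarith
    · -- bounds for the children
      have hc1 : ∀ a ∈ KO1 q s r w v, ∑ b, loss (comb s r A (B b)) m T (flip x (inl a))
          ((o, inl a) :: h) ≤
          Fintype.card Ω * (ext A (KO1 q s r) (CV1 q s r) (fun w => (diff w s).card ≤ q) m T N'
            (flip w a) v ((o, inl a) :: h) + prem A s r m T N' (flip w a) v
            ((o, inl a) :: h)) + ε * Fintype.card Ω * m ((o, inl a) :: h) := by
        intro a _
        by_cases hZ' : (diff (flip x (inl a) ∘ inl) s).card ≤ q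
        · rw [flip_inl_inl, ← hw] at hZ'
          have h1 := ext_nonneg (KO1 q s r) (CV1 q s r) (fun w => (diff w s).card ≤ q) A hm T N'
            (flip w a) v ((o, inl a) :: h)
          by_cases hN : N' = 0
          · have h2 : ∀ b, loss (comb s r A (B b)) m T (flip x (inl a)) ((o, inl a) :: h) ≤
                ext (B b) (KO2 s) (CV2 A s) (fun _ => False) m T N (flip w a) v
                  ((o, inl a) :: h) := by
              intro b
              have := loss_in s r A (B b) hm T N (by omega) (flip x (inl a))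
                ((o, inl a) :: h) (by rw [flip_inl_inl]; exact hZ')
              rw [flip_inl_inl, flip_inl_inr] at this
              exact this
            have h3 := ext_hard (KO2 s) (CV2 A s) (fun _ => False) hB hm T (flip w a) v
              ((o, inl a) :: h)
            have h4 := prem_nonneg A s r hm T N' (flip w a) v ((o, inl a) :: h)
            have h5 : 0 ≤ Fintype.card Ω * (ext A (KO1 q s r) (CV1 q s r)
              (fun w => (diff w s).card ≤ q) m T N'
              (flip w a) v ((o, inl a) :: h) + prem A s r m T N' (flip w a) v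
              ((o, inl a) :: h)) := mul_nonneg hΩ0 (by linarith)
            have h6 := Finset.sum_le_sum fun b (_ : b ∈ univ) => h2 b
            linarith
          · have h2 : prem A s r m T N' (flip w a) v ((o, inl a) :: h) = m ((o, inl a) :: h) :=
              prem_Z A s r m T N' hN _ _ _ hZ'
            have h3 : ∑ b, loss (comb s r A (B b)) m T (flip x (inl a)) ((o, inl a) :: h) ≤
                Fintype.card Ω * m ((o, inl a) :: h) := by
              calc _ ≤ ∑ _b : Ω, m ((o, inl a) :: h) :=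
                    Finset.sum_le_sum fun b _ => loss_le _ hm _ _ _
                _ = _ := by rw [Finset.sum_const, Finset.card_univ, nsmul_eq_mul]
            rw [h2]
            have h4 := hε' ((o, inl a) :: h)
            have h5 : Fintype.card Ω * m ((o, inl a) :: h) ≤
                Fintype.card Ω * (ext A (KO1 q s r) (CV1 q s r)
                (fun w => (diff w s).card ≤ q) m T N'
                (flip w a) v ((o, inl a) :: h) + m ((o, inl a) :: h)) :=
              mul_le_mul_of_nonneg_left (by linarith) hΩ0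
            linarith
        · have h1 := ih N' (by omega) (flip x (inl a)) ((o, inl a) :: h) hZ'
          rw [flip_inl_inl, flip_inl_inr] at h1
          exact h1
      have hc2 : ∀ i ∈ improving A.f v, ∑ b, loss (comb s r A (B b)) m T (flip x (inr i))
          ((o, inr i) :: h) ≤
          Fintype.card Ω * (ext A (KO1 q s r) (CV1 q s r) (fun w => (diff w s).card ≤ q) m T
            (N' - 1) w (flip v i) ((o, inr i) :: h) + prem A s r m T (N' - 1) w (flip v i)
            ((o, inr i) :: h)) + ε * Fintype.card Ω * m ((o, inr i) :: h) := by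
        intro i _
        have h1 := ih (N' - 1) (by omega) (flip x (inr i)) ((o, inr i) :: h)
          (by rw [flip_inr_inl]; exact hZ)
        rw [flip_inr_inl, flip_inr_inr] at h1
        exact h1
      have hs1 := Finset.sum_le_sum hc1
      have hs2 := Finset.sum_le_sum hc2
      simp only [Finset.sum_add_distrib, ← Finset.mul_sum] at hs1 hs2
      have hs3 : ε * Fintype.card Ω * ∑ a ∈ KO1 q s r w v, m ((o, inl a) :: h) +
          ε * Fintype.card Ω * ∑ i ∈ improving A.f v, m ((o, inr i) :: h) ≤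
          ε * Fintype.card Ω * m h := by
        rw [← mul_add]
        exact mul_le_mul_of_nonneg_left hflow (mul_nonneg hε hΩ0)
      by_cases hN : N' = 0
      · subst hN
        have z1 : ∀ (w : κ → Bool) (v : ι → Bool) (h : Hist (κ ⊕ ι)), ext A (KO1 q s r)
            (CV1 q s r) (fun w => (diff w s).card ≤ q) m T 0 w v h = 0 := by
          intro w v h
          cases T <;> simp [ext]
        have z2 : ∀ (w : κ → Bool) (v : ι → Bool) (h : Hist (κ ⊕ ι)),
            prem A s r m T 0 w v h = 0 := by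
          intro w v h
          cases T <;> simp [prem]
        have z3 : ext A (KO1 q s r) (CV1 q s r) (fun w => (diff w s).card ≤ q) m (T + 1) 0
            w v h = 0 := by simp [ext]
        have z4 : prem A s r m (T + 1) 0 w v h = 0 := by simp [prem]
        simp only [Nat.zero_sub, z1, z2, Finset.sum_const_zero, add_zero, mul_zero,
          zero_add] at hs1 hs2
        rw [z3, z4, hsum]
        linarith
      · have hU' : A.U v := by
          by_contra hc
          exact hU ⟨hN, hc⟩
        have z3 : ext A (KO1 q s r) (CV1 q s r) (fun w => (diff w s).card ≤ q) m (T + 1) N'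
            w v h =
            ∑ a ∈ KO1 q s r w v, ext A (KO1 q s r) (CV1 q s r)
              (fun w => (diff w s).card ≤ q) m T N' (flip w a) v ((o, inl a) :: h) +
            ∑ i ∈ improving A.f v, ext A (KO1 q s r) (CV1 q s r)
              (fun w => (diff w s).card ≤ q) m T (N' - 1) w (flip v i) ((o, inr i) :: h) := by
          rw [ext.eq_2, if_neg hN, if_pos hU', if_neg hZ]
          rfl
        have z4 : prem A s r m (T + 1) N' w v h =
            ∑ a ∈ KO1 q s r w v, prem A s r m T N' (flip w a) v ((o, inl a) :: h) +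
            ∑ i ∈ improving A.f v, prem A s r m T (N' - 1) w (flip v i)
              ((o, inr i) :: h) := by
          rw [prem, if_neg hN, if_neg hZ, if_pos hU']
        rw [z3, z4, hsum]
        have hexp : ∀ a b c d : ℝ, (Fintype.card Ω : ℝ) * (a + b + (c + d)) =
            Fintype.card Ω * (a + c) + Fintype.card Ω * (b + d) := by
          intro a b c d; ring
        rw [hexp]
        linarith

/-- the start in the ball -/
theorem sum_start (w : κ → Bool) (hc : 8 * q ≤ Fintype.card κ) :
    ∑ s : κ → Bool, (if (diff w s).card ≤ q then (1 : ℝ) else 0) ≤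
      (1 / 4) ^ q * Fintype.card (κ → Bool) := by
  have h1 := card_agr_le q w (fun i => !w i) (by
    have : diff w (fun i => !w i) = univ := by
      ext i; simp [mem_diff]
    rw [this, Finset.card_univ]; exact hc)
  have h2 : ∀ s : κ → Bool, agr w (fun i => !w i) s = diff w s := by
    intro s
    ext i
    rw [mem_agr, mem_diff]
    cases w i <;> cases s i <;> simp
  simp only [h2] at h1
  have hW : (Fintype.card (κ → Bool) : ℝ) = 2 ^ Fintype.card κ := by
    rw [Fintype.card_fun, Fintype.card_bool]; push_cast; rfl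
  rw [hW]
  exact h1

/-- **One step of the construction.** -/
theorem hard_step {N : ℕ} {ε : ℝ} (hε : 0 ≤ ε) (hcard : Fintype.card κ = c)
    (hc : 8 * q ≤ c) {lam δ : ℝ} (hlam : lam * (1 + θ) = θ) (hδ : ∀ w : κ → Bool,
      ∑ x : κ → Bool, lam ^ ((diff w x).card - 8 * q) ≤ δ * Fintype.card (κ → Bool))
    (H : Hard ι c q θ N ε) :
    Hard (κ ⊕ ι) c q θ (2 * N + 1)
      (2 * ε + ((1 / 4) ^ q * (2 * N + 3 : ℕ) + N * δ)) := by
  obtain ⟨Ω, hΩf, hΩn, B, hB⟩ := H
  refine ⟨(κ → Bool) × ((ι → Bool) → κ → Bool) × Ω × Ω, inferInstance, inferInstance,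
    fun ω => comb ω.1 ω.2.1 (B ω.2.2.1) (B ω.2.2.2), ?_⟩
  intro m hm x h
  have hm0 := hm.nonneg h
  set Wc : ℝ := ((Fintype.card (κ → Bool) : ℕ) : ℝ) with hWc
  set Rc : ℝ := ((Fintype.card ((ι → Bool) → κ → Bool) : ℕ) : ℝ) with hRc
  set Oc : ℝ := ((Fintype.card Ω : ℕ) : ℝ) with hOc
  have hWc0 : 0 ≤ Wc := Nat.cast_nonneg _
  have hRc0 : 0 ≤ Rc := Nat.cast_nonneg _
  have hOc0 : 0 ≤ Oc := Nat.cast_nonneg _
  have hcardΩ : ((Fintype.card ((κ → Bool) × ((ι → Bool) → κ → Bool) × Ω × Ω) : ℕ) : ℝ) =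
      Wc * Rc * Oc * Oc := by
    rw [Fintype.card_prod, Fintype.card_prod, Fintype.card_prod]
    push_cast
    ring
  rw [hcardΩ, Fintype.sum_prod_type]
  simp only [Fintype.sum_prod_type]
  -- the bound for fixed `s`, `r`, `a`
  have key : ∀ (s : κ → Bool) (r : (ι → Bool) → κ → Bool) (a : Ω),
      ∑ b, loss (comb s r (B a) (B b)) m (2 * N + 1) x h ≤
        Oc * m h * (if (diff (x ∘ inl) s).card ≤ q then (1 : ℝ) else 0) +
        (Oc * (ext (B a) (KO1 q s r) (CV1 q s r) (fun w => (diff w s).card ≤ q) m (2 * N + 1) N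
          (x ∘ inl) (x ∘ inr) h + prem (B a) s r m (2 * N + 1) N (x ∘ inl) (x ∘ inr) h) +
          ε * Oc * m h) := by
    intro s r a
    have n1 := ext_nonneg (KO1 q s r) (CV1 q s r) (fun w => (diff w s).card ≤ q) (B a) hm
      (2 * N + 1) N (x ∘ inl) (x ∘ inr) h
    have n2 := prem_nonneg (B a) s r hm (2 * N + 1) N (x ∘ inl) (x ∘ inr) h
    have n3 : 0 ≤ ε * Oc * m h := by positivity
    by_cases hZ : (diff (x ∘ inl) s).card ≤ q
    · rw [if_pos hZ]
      have h3 : ∑ b, loss (comb s r (B a) (B b)) m (2 * N + 1) x h ≤ Oc * m h := by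
        calc _ ≤ ∑ _b : Ω, m h := Finset.sum_le_sum fun b _ => loss_le _ hm _ _ _
          _ = _ := by rw [Finset.sum_const, Finset.card_univ, nsmul_eq_mul]
      have n4 : 0 ≤ Oc * (ext (B a) (KO1 q s r) (CV1 q s r) (fun w => (diff w s).card ≤ q) m
          (2 * N + 1) N (x ∘ inl) (x ∘ inr) h + prem (B a) s r m (2 * N + 1) N (x ∘ inl)
          (x ∘ inr) h) := mul_nonneg hOc0 (by linarith)
      linarith
    · rw [if_neg hZ]
      have := loss_out s r (B a) hε hB hm (2 * N + 1) N (by omega) x h hZ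
      linarith
  have hs1 : ∑ s : κ → Bool, ∑ r : (ι → Bool) → κ → Bool, ∑ a : Ω,
      Oc * m h * (if (diff (x ∘ inl) s).card ≤ q then (1 : ℝ) else 0) ≤
      Wc * Rc * Oc * Oc * ((1 / 4) ^ q * m h) := by
    have h1 := sum_start (κ := κ) (q := q) (x ∘ inl) (by omega)
    simp only [Finset.sum_const, Finset.card_univ, nsmul_eq_mul]
    rw [← Finset.mul_sum, ← Finset.mul_sum, ← Finset.mul_sum, ← hRc, ← hOc]
    rw [← hWc] at h1
    calc Rc * (Oc * (Oc * m h * ∑ s : κ → Bool,
          (if (diff (x ∘ inl) s).card ≤ q then (1 : ℝ) else 0)))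
        ≤ Rc * (Oc * (Oc * m h * ((1 / 4) ^ q * Wc))) := by gcongr
      _ = _ := by ring
  have hs2 : ∑ s : κ → Bool, ∑ r : (ι → Bool) → κ → Bool, ∑ a : Ω,
      Oc * ext (B a) (KO1 q s r) (CV1 q s r) (fun w => (diff w s).card ≤ q) m (2 * N + 1) N
          (x ∘ inl) (x ∘ inr) h ≤ Wc * Rc * Oc * Oc * (ε * m h) := by
    calc _ ≤ ∑ s : κ → Bool, ∑ r : (ι → Bool) → κ → Bool, Oc * (ε * Oc * m h) := by
          refine Finset.sum_le_sum fun s _ => Finset.sum_le_sum fun r _ => ?_
          rw [← Finset.mul_sum]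
          exact mul_le_mul_of_nonneg_left
            (ext_hard (KO1 q s r) (CV1 q s r) (fun w => (diff w s).card ≤ q) hB hm _ _ _ _) hOc0
      _ = _ := by
          simp only [Finset.sum_const, Finset.card_univ, nsmul_eq_mul]
          rw [← hRc, ← hWc]; ring
  have hs3 : ∑ s : κ → Bool, ∑ r : (ι → Bool) → κ → Bool, ∑ a : Ω,
      Oc * prem (B a) s r m (2 * N + 1) N (x ∘ inl) (x ∘ inr) h ≤
      Wc * Rc * Oc * Oc * (((1 / 4) ^ q * (2 * N + 1 + 1 : ℕ) + N * δ) * m h) := by
    have h1 : ∑ s : κ → Bool, ∑ r : (ι → Bool) → κ → Bool, ∑ a : Ω,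
      Oc * prem (B a) s r m (2 * N + 1) N (x ∘ inl) (x ∘ inr) h =
        Oc * ∑ a : Ω, ∑ s : κ → Bool, ∑ r : (ι → Bool) → κ → Bool,
          prem (B a) s r m (2 * N + 1) N (x ∘ inl) (x ∘ inr) h := by
      simp only [← Finset.mul_sum]
      congr 1
      rw [Finset.sum_comm]
      simp only [Finset.sum_comm (s := (univ : Finset Ω))]
      rw [Finset.sum_comm]
    rw [h1]
    calc _ ≤ Oc * ∑ _a : Ω, Wc * Rc * (((1 / 4) ^ q * (2 * N + 1 + 1 : ℕ) + N * δ) * m h) := by
          refine mul_le_mul_of_nonneg_left (Finset.sum_le_sum fun a _ => ?_) hOc0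
          subst hcard
          exact sum_prem (B a) hm hlam hδ N (2 * N + 1) _ _ _
      _ = _ := by
          rw [Finset.sum_const, Finset.card_univ, nsmul_eq_mul, ← hOc]; ring
  have hs4 : ∑ s : κ → Bool, ∑ r : (ι → Bool) → κ → Bool, ∑ a : Ω, ε * Oc * m h =
      Wc * Rc * Oc * Oc * (ε * m h) := by
    simp only [Finset.sum_const, Finset.card_univ, nsmul_eq_mul]
    rw [← hRc, ← hWc, ← hOc]; ring
  calc ∑ s : κ → Bool, ∑ r : (ι → Bool) → κ → Bool, ∑ a : Ω, ∑ b : Ω,
        loss (comb s r (B a) (B b)) m (2 * N + 1) x h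
      ≤ ∑ s : κ → Bool, ∑ r : (ι → Bool) → κ → Bool, ∑ a : Ω,
        (Oc * m h * (if (diff (x ∘ inl) s).card ≤ q then (1 : ℝ) else 0) +
        (Oc * (ext (B a) (KO1 q s r) (CV1 q s r) (fun w => (diff w s).card ≤ q) m (2 * N + 1) N
          (x ∘ inl) (x ∘ inr) h + prem (B a) s r m (2 * N + 1) N (x ∘ inl) (x ∘ inr) h) +
          ε * Oc * m h)) :=
        Finset.sum_le_sum fun s _ => Finset.sum_le_sum fun r _ =>
          Finset.sum_le_sum fun a _ => key s r a
    _ = ∑ s : κ → Bool, ∑ r : (ι → Bool) → κ → Bool, ∑ a : Ω,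
        Oc * m h * (if (diff (x ∘ inl) s).card ≤ q then (1 : ℝ) else 0) +
        (∑ s : κ → Bool, ∑ r : (ι → Bool) → κ → Bool, ∑ a : Ω,
          Oc * ext (B a) (KO1 q s r) (CV1 q s r) (fun w => (diff w s).card ≤ q) m (2 * N + 1) N
          (x ∘ inl) (x ∘ inr) h +
        ∑ s : κ → Bool, ∑ r : (ι → Bool) → κ → Bool, ∑ a : Ω,
          Oc * prem (B a) s r m (2 * N + 1) N (x ∘ inl) (x ∘ inr) h +
        ∑ s : κ → Bool, ∑ r : (ι → Bool) → κ → Bool, ∑ a : Ω, ε * Oc * m h) := by
        simp only [mul_add, Finset.sum_add_distrib]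
    _ ≤ Wc * Rc * Oc * Oc * ((1 / 4) ^ q * m h) + (Wc * Rc * Oc * Oc * (ε * m h) +
        Wc * Rc * Oc * Oc * (((1 / 4) ^ q * (2 * N + 1 + 1 : ℕ) + N * δ) * m h) +
        Wc * Rc * Oc * Oc * (ε * m h)) := by
        rw [hs4]
        exact add_le_add hs1 (add_le_add (add_le_add hs2 hs3) le_rfl)
    _ = _ := by push_cast; ring

end Pool.Agent.K4H94.SX
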